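import Pool.Agent.Helper94.CCA.Defs

/-!
# Counting neighbours with labels
-/

open Set SimpleGraph

namespace Pool.Agent.Helper94.CCA

variable {n : ℕ}

/-- The number of neighbours with a property in terms of a labelling. -/
lemma ncard_eq_card {V : Type*} {G : SimpleGraph V} {L : Lab V n}
    (hL : ∀ v u, G.Adj v u ↔ ∃ a, u = L.nb v a) (v : V) (p : V → Prop) [DecidablePred p] :
    {u : V | G.Adj v u ∧ p u}.ncard = (Finset.univ.filter fun a => p (L.nb v a)).card := by
  have h : {u : V | G.Adj v u ∧ p u} =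
      (fun a => L.nb v a) '' ((Finset.univ.filter fun a => p (L.nb v a) : Finset (Fin n)) :
        Set (Fin n)) := by
    ext u
    simp only [mem_ofPred_eq, hL, mem_image, Finset.coe_filter, Finset.mem_univ, true_and]
    constructor
    · rintro ⟨⟨a, rfl⟩, hp⟩
      exact ⟨a, hp, rfl⟩
    · rintro ⟨a, hp, rfl⟩
      exact ⟨⟨a, rfl⟩, hp⟩
  rw [h, ncard_image_of_injective _ (L.nb_inj v), ncard_coe_finset]

theorem ccaStep_eq {V : Type*} {G : SimpleGraph V} {L : Lab V n}
    (hL : ∀ v u, G.Adj v u ↔ ∃ a, u = L.nb v a) (κ θ : ℕ) [NeZero κ] :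
    ccaStep G κ θ = ccaL L κ θ := by
  funext ξ v
  unfold ccaStep ccaL
  rw [ncard_eq_card hL v (fun u => ξ u = ξ v + 1)]

theorem ghmStep_eq {V : Type*} {G : SimpleGraph V} {L : Lab V n}
    (hL : ∀ v u, G.Adj v u ↔ ∃ a, u = L.nb v a) (κ θ : ℕ) [NeZero κ] :
    ghmStep G κ θ = ghmL L κ θ := by
  funext ξ v
  unfold ghmStep ghmL
  rw [ncard_eq_card hL v (fun u => ξ u = 1)]

end Pool.Agent.Helper94.CCA
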