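import Pool.Agent.Helper94.CCA.WordsA
import Pool.Agent.Helper95.CT.Tree

/-!
# Every regular tree is the words model
-/

open Set SimpleGraph

namespace Pool.Agent.Helper94.CCA

variable {d : ℕ}

/-- In a tree, the endpoints of an edge are at different distances from the root, which differ by
one.  PROOF: by the triangle inequality the distances differ by at most one; if they were equal,
the unique path from `r` to `y`, extended by `x` if `x` is not on it, would be a second path to `x`
(compare lengths; see the proof of `Pool.Agent.Helper95.CT.par_unique` for the technique).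
Possibly Mathlib has this for bipartite graphs or trees. -/
lemma tree_dist_succ {V : Type*} {G : SimpleGraph V} (hG : G.IsTree) (r : V) {x y : V}
    (h : G.Adj x y) : G.dist r x + 1 = G.dist r y ∨ G.dist r y + 1 = G.dist r x := by
  rcases hG.dist_eq_dist_add_one_of_adj r h with h1 | h1
  · exact Or.inr h1.symm
  · exact Or.inl h1.symm

/-- one step of the construction: the new vertex and its labelling -/
private noncomputable def isoStep {V : Type*} {G : SimpleGraph V}
    (e : ∀ v, Fin (d + 1) ≃ G.neighborSet v) (p : Σ v : V, (Fin (d + 1) ≃ G.neighborSet v))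
    (a : Fin (d + 1)) : Σ v : V, (Fin (d + 1) ≃ G.neighborSet v) :=
  ⟨(p.2 a).1, (Equiv.swap a ((e (p.2 a).1).symm ⟨p.1, (p.2 a).2.symm⟩)).trans (e (p.2 a).1)⟩

private lemma isoStep_fst {V : Type*} {G : SimpleGraph V}
    (e : ∀ v, Fin (d + 1) ≃ G.neighborSet v) (p : Σ v : V, (Fin (d + 1) ≃ G.neighborSet v))
    (a : Fin (d + 1)) : (isoStep e p a).1 = (p.2 a).1 := rfl

private lemma isoStep_snd {V : Type*} {G : SimpleGraph V}
    (e : ∀ v, Fin (d + 1) ≃ G.neighborSet v) (p : Σ v : V, (Fin (d + 1) ≃ G.neighborSet v))
    (a : Fin (d + 1)) : ((isoStep e p a).2 a).1 = p.1 := by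
  change ((e (p.2 a).1) ((Equiv.swap a ((e (p.2 a).1).symm ⟨p.1, (p.2 a).2.symm⟩)) a)).1 = p.1
  rw [Equiv.swap_apply_left, Equiv.apply_symm_apply]

/-- the vertex and the labelling at the end of a word -/
private noncomputable def isoPhi {V : Type*} {G : SimpleGraph V}
    (e : ∀ v, Fin (d + 1) ≃ G.neighborSet v) (r : V) :
    List (Fin (d + 1)) → Σ v : V, (Fin (d + 1) ≃ G.neighborSet v)
  | [] => ⟨r, e r⟩
  | a :: l => isoStep e (isoPhi e r l) a

private lemma iso_cases (w : Vert d) : w = root ∨ ∃ (a : Fin (d + 1)) (w' : Vert d),
    w.1 = a :: w'.1 ∧ wnb w' a = w ∧ wnb w a = w' := by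
  obtain ⟨l, hl⟩ := w
  cases l with
  | nil => left; rfl
  | cons a l =>
    right
    refine ⟨a, ⟨l, hl.tail⟩, rfl, wnb_tail a l hl, ?_⟩
    rw [← wnb_tail a l hl, wnb_wnb]

private lemma iso_nb {V : Type*} {G : SimpleGraph V}
    (e : ∀ v, Fin (d + 1) ≃ G.neighborSet v) (r : V) (w : Vert d) (a : Fin (d + 1)) :
    (isoPhi e r (wnb w a).1).1 = ((isoPhi e r w.1).2 a).1 := by
  by_cases h : w.1.head? = some a
  · rcases iso_cases w with h1 | ⟨b, w', h1, h2, h3⟩
    · subst h1
      simp [root] at h
    · have hab : b = a := by
        rw [h1] at h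
        simpa using h
      subst hab
      rw [h3, h1]
      exact (isoStep_snd e (isoPhi e r w'.1) b).symm
  · rw [wnb_cons w a h]
    rfl

/-- Every tree all of whose vertices have degree `d + 1` is isomorphic to the words model.
PROOF: choose for every `v` an equivalence `e v : Fin (d + 1) ≃ G.neighborSet v` (cardinality).
Define by recursion on lists `Φ : List (Fin (d + 1)) → Σ v : V, (Fin (d + 1) ≃ G.neighborSet v)`,
`Φ [] = ⟨r, e r⟩` and, if `Φ l = ⟨v, E⟩`, `Φ (a :: l) = ⟨w, E'⟩` with `w = E a` and
`E' = (e w).trans (Equiv.swap ((e w) a) v)`, so that `E' a = v` (and `v` is a neighbour of `w`).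
Put `f w = (Φ w.1).1`.  Then `f (wnb w a) = (Φ w.1).2 a` for every word `w` and every letter `a`
(two cases: by definition if the head of `w` is not `a`, and by `E' a = v` otherwise).  Hence the
neighbours of `f w` are exactly the `f (wnb w a)`, and these are distinct for distinct `a`.
Surjectivity: the range contains `r` and is closed under adjacency; `G` is connected.
Distance: `G.dist r (f w) = length w` and, for `w = b :: w'`, `f w'` is the neighbour of `f w`
closer to `r`: induction; for `w = b :: w'` and `a ≠ b`, `f (wnb w a)` is a neighbour of `f w`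
different from `f w'`, so by `par_unique` (Helper95.CT) and `tree_dist_succ` it is farther from `r`.
Injectivity: if `f u = f v` then the lengths agree; if they are positive, `u = a :: u'`,
`v = b :: v'`, the closer neighbours agree, `f u' = f v'`, so `u' = v'` by induction and then
`(Φ u').2 a = (Φ u').2 b` gives `a = b`. -/
theorem exists_equiv_words {V : Type*} (G : SimpleGraph V) (hG : G.IsTree)
    (hdeg : ∀ v, (G.neighborSet v).ncard = d + 1) (r : V) :
    ∃ f : Vert d ≃ V, f root = r ∧ ∀ w u, G.Adj (f w) u ↔ ∃ a, u = f (wnb w a) := by
  classical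
  have he : ∀ v, Nonempty (Fin (d + 1) ≃ G.neighborSet v) := by
    intro v
    have h1 : Nat.card (G.neighborSet v) = d + 1 := by
      rw [Nat.card_coe_set_eq]; exact hdeg v
    have : Finite (G.neighborSet v) := Nat.finite_of_card_ne_zero (by omega)
    exact ⟨(Finite.equivFinOfCardEq h1).symm⟩
  let e : ∀ v, Fin (d + 1) ≃ G.neighborSet v := fun v => Classical.choice (he v)
  set f : Vert d → V := fun w => (isoPhi e r w.1).1 with hf
  have hnb : ∀ w a, f (wnb w a) = ((isoPhi e r w.1).2 a).1 := fun w a => iso_nb e r w a
  have hadj : ∀ w u, G.Adj (f w) u ↔ ∃ a, u = f (wnb w a) := by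
    intro w u
    constructor
    · intro h
      refine ⟨(isoPhi e r w.1).2.symm ⟨u, h⟩, ?_⟩
      rw [hnb, Equiv.apply_symm_apply]
    · rintro ⟨a, rfl⟩
      rw [hnb]
      exact ((isoPhi e r w.1).2 a).2
  have hinj : ∀ w a b, f (wnb w a) = f (wnb w b) → a = b := by
    intro w a b h
    rw [hnb, hnb] at h
    exact (isoPhi e r w.1).2.injective (Subtype.ext h)
  have hroot : f root = r := rfl
  -- surjectivity
  have hsurj : Function.Surjective f := by
    intro u
    obtain ⟨p⟩ := hG.connected.preconnected r u
    have key : ∀ (x y : V) (p : G.Walk x y), (∃ w, f w = x) → ∃ w, f w = y := by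
      intro x y p
      induction p with
      | nil => exact fun h => h
      | cons h p ih =>
        rintro ⟨w, rfl⟩
        obtain ⟨a, ha⟩ := (hadj w _).1 h
        exact ih ⟨wnb w a, ha.symm⟩
    exact key r u p ⟨root, hroot⟩
  -- distances
  have hdist : ∀ (n : ℕ) (w : Vert d), w.1.length = n → G.dist r (f w) = n := by
    intro n
    induction n using Nat.strong_induction_on with
    | _ n ih =>
      intro w hw
      rcases iso_cases w with h1 | ⟨a, w', h1, h2, h3⟩
      · subst h1
        have : n = 0 := by rw [← hw]; rfl
        subst this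
        rw [hroot]; simp
      · have hw' : w'.1.length + 1 = n := by rw [← hw, h1]; simp
        have e1 := ih w'.1.length (by omega) w' rfl
        have hadj1 : G.Adj (f w') (f w) := (hadj w' _).2 ⟨a, by rw [h2]⟩
        rcases tree_dist_succ hG r hadj1 with h4 | h4
        · rw [← h4, e1]; exact hw'
        · exfalso
          rcases iso_cases w' with h5 | ⟨b, w'', h5, h6, h7⟩
          · subst h5
            rw [hroot] at h4
            simp at h4
          · have e2 := ih w''.1.length (by
              have : w'.1.length = w''.1.length + 1 := by rw [h5]; simp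
              omega) w'' rfl
            have hlen : w'.1.length = w''.1.length + 1 := by rw [h5]; simp
            have hadj2 : G.Adj (f w') (f w'') := (hadj w' _).2 ⟨b, by rw [h7]⟩
            have h8 : f w = f w'' := Pool.Agent.Helper95.CT.par_unique hG hadj1 hadj2 h4
              (by rw [e2, e1, hlen])
            have h9 : a = b := by
              apply hinj w'
              rw [h2, h7]
              exact h8
            have h10 := w.2
            rw [h1, h5, h9, List.isChain_cons_cons] at h10
            exact h10.1 rfl
  have hbij : Function.Injective f := by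
    have key : ∀ (n : ℕ) (u v : Vert d), u.1.length = n → f u = f v → u = v := by
      intro n
      induction n with
      | zero =>
        intro u v hu huv
        have h1 := hdist _ u rfl
        have h2 := hdist _ v rfl
        rw [huv, h2, hu] at h1
        apply Subtype.ext
        rw [List.eq_nil_of_length_eq_zero hu, List.eq_nil_of_length_eq_zero h1]
      | succ n ih =>
        intro u v hu huv
        have e1 := hdist _ u rfl
        have e2 := hdist _ v rfl
        have hlen : v.1.length = u.1.length := by rw [← e1, huv, e2]
        rcases iso_cases u with h1 | ⟨a, u', h1, h2, h3⟩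
        · subst h1
          simp [root] at hu
        · rcases iso_cases v with h4 | ⟨b, v', h4, h5, h6⟩
          · subst h4
            rw [hu] at hlen
            simp [root] at hlen
          · have l1 : u.1.length = u'.1.length + 1 := by rw [h1]; simp
            have l2 : v.1.length = v'.1.length + 1 := by rw [h4]; simp
            have a1 : G.Adj (f u) (f u') := (hadj u _).2 ⟨a, by rw [h3]⟩
            have a2 : G.Adj (f v) (f v') := (hadj v _).2 ⟨b, by rw [h6]⟩
            rw [← huv] at a2
            have e3 := hdist _ u' rfl
            have e4 := hdist _ v' rfl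
            have h7 : f u' = f v' := Pool.Agent.Helper95.CT.par_unique hG a1 a2
              (by rw [e3, e1, l1]) (by rw [e4, e1]; omega)
            have h8 : u' = v' := ih u' v' (by omega) h7
            subst h8
            have h9 : a = b := by
              apply hinj u'
              rw [h2, h5]
              exact huv
            subst h9
            rw [← h2, ← h5]
    intro u v huv
    exact key _ u v rfl huv
  exact ⟨Equiv.ofBijective f ⟨hbij, hsurj⟩, hroot, hadj⟩

end Pool.Agent.Helper94.CCA
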