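import Pool.Agent.Helper94.CCA.Words
import Pool.Agent.Helper94.CCA.Iso

/-!
# Labelling of an arbitrary regular tree
-/

open Set SimpleGraph

namespace Pool.Agent.Helper94.CCA

variable {n : ℕ}

/-- Transport of a labelling along a bijection. -/
def Lab.map {U V : Type*} (L : Lab U n) (f : U ≃ V) : Lab V n where
  nb v a := f (L.nb (f.symm v) a)
  nb_nb v a := by rw [f.symm_apply_apply, L.nb_nb, f.apply_symm_apply]
  nb_inj v := by
    intro a b h
    exact L.nb_inj _ (f.injective h)
  trans x y := by
    obtain ⟨σ, h1, h2⟩ := L.trans (f.symm x) (f.symm y)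
    refine ⟨(f.symm.trans σ).trans f, fun v a => ?_, ?_⟩
    · simp only [Equiv.trans_apply, Equiv.symm_apply_apply]
      rw [h1]
    · simp only [Equiv.trans_apply]
      rw [h2, f.apply_symm_apply]
  wander K := by
    obtain ⟨σ, h1, h2⟩ := L.wander (K.map f.symm.toEmbedding)
    refine ⟨(f.symm.trans σ).trans f, fun v a => ?_, fun v hv => ?_⟩
    · simp only [Equiv.trans_apply, Equiv.symm_apply_apply]
      rw [h1]
    · intro hv2
      apply h2 (f.symm v) (Finset.mem_map_equiv.2 (by simpa using hv))
      rw [Finset.mem_map_equiv]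
      simpa using hv2
  conn S hS h := by
    have h1 := L.conn (f ⁻¹' S) ?_ ?_
    · rw [Set.eq_univ_iff_forall] at h1 ⊢
      intro v
      have := h1 (f.symm v)
      rwa [Set.mem_preimage, f.apply_symm_apply] at this
    · obtain ⟨v, hv⟩ := hS
      exact ⟨f.symm v, by rwa [Set.mem_preimage, f.apply_symm_apply]⟩
    · intro v hv a
      have := h (f v) hv a
      rwa [f.symm_apply_apply] at this

/-- Every regular tree carries a labelling.  PROOF: `exists_equiv_words` for some `r`
(`hG.connected.nonempty`), `Lab.map (wordsLab d hd) f`, `G.Adj v u` with `v = f (f.symm v)`;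
`Vert d` is countable. -/
theorem exists_lab {V : Type*} (G : SimpleGraph V) (hG : G.IsTree) {d : ℕ} (hd : 1 ≤ d)
    (hdeg : ∀ v, (G.neighborSet v).ncard = d + 1) :
    Countable V ∧ ∃ L : Lab V (d + 1), ∀ v u, G.Adj v u ↔ ∃ a, u = L.nb v a := by
  obtain ⟨r⟩ := hG.connected.nonempty
  obtain ⟨f, -, hf⟩ := exists_equiv_words G hG hdeg r
  refine ⟨f.symm.injective.countable, (wordsLab d hd).map f, fun v u => ?_⟩
  have h := hf (f.symm v) u
  rw [f.apply_symm_apply] at h
  exact h

end Pool.Agent.Helper94.CCA
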