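import Pool.Agent.Helper94.CCA.WordsA

/-!
# The words model is a labelled regular structure
-/

open Set

namespace Pool.Agent.Helper94.CCA

variable {d : ℕ}

/-- Apply the letters of a word, the last letter first. -/
private def actL (x : Vert d) (w : List (Fin (d + 1))) : Vert d :=
  w.foldr (fun a v => wnb v a) x

private lemma actL_wnb (x w : Vert d) (a : Fin (d + 1)) :
    actL x (wnb w a).1 = wnb (actL x w.1) a := by
  by_cases h : w.1.head? = some a
  · obtain ⟨l, hl⟩ := w
    cases l with
    | nil => simp at h
    | cons b t =>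
      simp only [List.head?_cons, Option.some.injEq] at h
      subst h
      have h1 : wnb (⟨b :: t, hl⟩ : Vert d) b = ⟨t, hl.tail⟩ := by
        rw [← wnb_tail b t hl, wnb_wnb]
      rw [h1]
      change actL x t = wnb (wnb (actL x t) b) b
      rw [wnb_wnb]
  · rw [wnb_cons w a h]
    rfl

private lemma comm_ext {f g : Vert d → Vert d} (hf : ∀ v a, f (wnb v a) = wnb (f v) a)
    (hg : ∀ v a, g (wnb v a) = wnb (g v) a) (h : f root = g root) : f = g := by
  have h1 : {w : Vert d | f w = g w} = univ := by
    refine words_conn _ ⟨root, h⟩ fun v hv a => ?_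
    have hv' : f v = g v := hv
    change f (wnb v a) = g (wnb v a)
    rw [hf, hg, hv']
  funext w
  have : w ∈ {w : Vert d | f w = g w} := by rw [h1]; trivial
  exact this

private lemma actL_surj (x : Vert d) (y : Vert d) : ∃ w : Vert d, actL x w.1 = y := by
  have h1 : Set.range (fun w : Vert d => actL x w.1) = univ := by
    refine words_conn _ ⟨_, ⟨root, rfl⟩⟩ ?_
    rintro _ ⟨w, rfl⟩ a
    exact ⟨wnb w a, actL_wnb x w a⟩
  have : y ∈ Set.range (fun w : Vert d => actL x w.1) := by rw [h1]; trivial
  exact this

private lemma actL_inv {x y : Vert d} (h : actL x y.1 = root) (w : Vert d) :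
    actL x (actL y w.1).1 = w := by
  have h1 : (fun w : Vert d => actL x (actL y w.1).1) = id := by
    refine comm_ext ?_ ?_ ?_
    · intro v a
      rw [actL_wnb, actL_wnb]
    · intro v a
      rfl
    · exact h
  exact congrFun h1 w

/-- The right multiplications.
PROOF: for `x : Vert d` put `A x w := w.1.foldr (fun a v => wnb v a) x` (a function
`Vert d → Vert d`).  Then `A x root = x` and `A x (wnb w a) = wnb (A x w) a`: if the head of `w` is
not `a` this is the definition (`wnb_cons`); if `w = a :: w'` then `A x w = wnb (A x w') a` and both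
sides are `A x w'` by `wnb_wnb`.  A map `f` with `f (wnb w a) = wnb (f w) a` is determined by
`f root` (induction on the length of the word, `wnb_tail`), so `A x ∘ A y = A (A x y)`, and
`A root = id`.  The range of `A x` is nonempty and closed under `wnb`, so it is everything by
`words_conn`; so there is `y` with `A x y = root`, whence `A x ∘ A y = id`.  The same applied to
`y` gives `z` with `A y ∘ A z = id`; hence `A x = A z` and `A x` is bijective. -/
lemma words_auto (x : Vert d) :
    ∃ σ : Vert d ≃ Vert d, (∀ v a, σ (wnb v a) = wnb (σ v) a) ∧ σ root = x := by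
  obtain ⟨y, hy⟩ := actL_surj x root
  obtain ⟨z, hz⟩ := actL_surj y root
  have hxz : ∀ w : Vert d, actL x w.1 = actL z w.1 := by
    intro w
    have h1 := actL_inv hz w
    have h2 := actL_inv hy (actL z w.1)
    rw [h1] at h2
    exact h2
  refine ⟨⟨fun w => actL x w.1, fun w => actL y w.1, fun w => ?_, fun w => ?_⟩, ?_, rfl⟩
  · change actL y (actL x w.1).1 = w
    rw [hxz w]
    exact actL_inv hz w
  · exact actL_inv hy w
  · intro v a
    exact actL_wnb x v a

/-- PROOF: compose the inverse of `words_auto x` with `words_auto y`; the inverse of a map which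
commutes with `wnb · a` commutes with it. -/
lemma words_trans (x y : Vert d) :
    ∃ σ : Vert d ≃ Vert d, (∀ v a, σ (wnb v a) = wnb (σ v) a) ∧ σ x = y := by
  obtain ⟨s, hs, hs0⟩ := words_auto x
  obtain ⟨t, ht, ht0⟩ := words_auto y
  refine ⟨s.symm.trans t, fun v a => ?_, ?_⟩
  · have h1 : s.symm (wnb v a) = wnb (s.symm v) a := by
      apply s.injective
      rw [Equiv.apply_symm_apply, hs, Equiv.apply_symm_apply]
    rw [Equiv.trans_apply, h1, ht, Equiv.trans_apply]
  · rw [Equiv.trans_apply, ← hs0, Equiv.symm_apply_apply, ht0]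

private lemma length_auto {σ : Vert d → Vert d} (hσ : ∀ v a, σ (wnb v a) = wnb (σ v) a) :
    ∀ (l : List (Fin (d + 1))) (hl : l.IsChain (· ≠ ·)),
      (σ root).1.length ≤ (σ ⟨l, hl⟩).1.length + l.length
  | [], _ => le_of_eq rfl
  | a :: l, hl => by
    have h1 := length_auto hσ l hl.tail
    have h2 := length_wnb (σ ⟨l, hl.tail⟩) a
    rw [← hσ, wnb_tail a l hl] at h2
    rw [List.length_cons]
    omega

private lemma exists_length (hd : 1 ≤ d) (n : ℕ) : ∃ x : Vert d, x.1.length = n := by
  induction n with
  | zero => exact ⟨root, rfl⟩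
  | succ n ih =>
    obtain ⟨x, hx⟩ := ih
    have h1 : ∃ a : Fin (d + 1), x.1.head? ≠ some a := by
      by_contra hcon
      push Not at hcon
      have h2 := hcon 0
      have h3 := hcon (Fin.last d)
      rw [h2] at h3
      have h4 := Option.some.inj h3
      have h5 := congrArg Fin.val h4
      simp only [Fin.val_zero, Fin.val_last] at h5
      omega
    obtain ⟨a, ha⟩ := h1
    refine ⟨wnb x a, ?_⟩
    rw [wnb_cons x a ha, List.length_cons, hx]

/-- PROOF: if `σ` commutes with `wnb` then `length (σ w) + length w ≥ length (σ root)` by induction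
on `w` (`length_wnb`, `wnb_tail`).  Let `M` bound the lengths of the words in `K` and take a word
`x` of length `> 2 M` (alternate the letters `0` and `1`, possible as `d ≥ 1`), and `σ` from
`words_auto x`: for `v ∈ K` the length of `σ v` is `> M`. -/
lemma words_wander (hd : 1 ≤ d) (K : Finset (Vert d)) :
    ∃ σ : Vert d ≃ Vert d, (∀ v a, σ (wnb v a) = wnb (σ v) a) ∧ ∀ v ∈ K, σ v ∉ K := by
  obtain ⟨x, hx⟩ := exists_length hd (2 * K.sup (fun v : Vert d => v.1.length) + 1)
  obtain ⟨σ, hσ, hσ0⟩ := words_auto x
  refine ⟨σ, hσ, fun v hv hv' => ?_⟩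
  have h1 : v.1.length ≤ K.sup (fun v : Vert d => v.1.length) :=
    Finset.le_sup (f := fun v : Vert d => v.1.length) hv
  have h2 : (σ v).1.length ≤ K.sup (fun v : Vert d => v.1.length) :=
    Finset.le_sup (f := fun v : Vert d => v.1.length) hv'
  have h3 := length_auto (σ := σ) hσ v.1 v.2
  rw [hσ0, hx] at h3
  have h4 : (⟨v.1, v.2⟩ : Vert d) = v := rfl
  rw [h4] at h3
  omega

/-- The labelling of the words model. -/
def wordsLab (d : ℕ) (hd : 1 ≤ d) : Lab (Vert d) (d + 1) where
  nb := wnb
  nb_nb := wnb_wnb
  nb_inj := wnb_inj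
  trans := words_trans
  wander := words_wander hd
  conn := words_conn

end Pool.Agent.Helper94.CCA
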