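import Pool.Agent.Helper94.CCA.Defs

/-!
# Approximation by cylinder sets
-/

open MeasureTheory Set

namespace Pool.Agent.Helper94.CCA

variable {V : Type*} {n κ : ℕ}

/-- Measurable sets are approximated by sets depending on finitely many coordinates.
PROOF: `MeasureTheory.exists_measure_symmDiff_lt_of_generateFrom_isSetRing`
for `measurableCylinders`, which is a ring of sets generating the product sigma-algebra. -/
theorem exists_cylinder_approx [NeZero κ] (A : Set (V → Fin κ)) (hA : MeasurableSet A) {ε : ℝ}
    (hε : 0 < ε) : ∃ (K : Finset V) (B : Set (V → Fin κ)), MeasurableSet B ∧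
      (∀ ω ω' : V → Fin κ, (∀ v ∈ K, ω v = ω' v) → (ω ∈ B ↔ ω' ∈ B)) ∧
      (law V κ (symmDiff A B)).toReal < ε := by
  obtain ⟨B, hB, hlt⟩ := exists_measure_symmDiff_lt_of_generateFrom_isSetRing (μ := law V κ)
    (isSetRing_measurableCylinders (α := fun _ : V => Fin κ))
    ⟨{univ}, countable_singleton _,
      singleton_subset_iff.2 (univ_mem_measurableCylinders (fun _ : V => Fin κ)), by simp⟩
    generateFrom_measurableCylinders.symm hA (ε := ENNReal.ofReal ε) (ENNReal.ofReal_pos.2 hε)
  obtain ⟨K, S, hS, hBK⟩ := (mem_measurableCylinders _).1 hB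
  refine ⟨K, B, ?_, ?_, ?_⟩
  · rw [hBK]
    exact hS.cylinder
  · intro ω ω' h
    rw [hBK, mem_cylinder, mem_cylinder]
    have : K.restrict ω = K.restrict ω' := by
      funext i
      exact h i.1 i.2
    rw [this]
  · rw [symmDiff_comm]
    exact (ENNReal.toReal_lt_of_lt_ofReal hlt)

end Pool.Agent.Helper94.CCA
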