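import Mathlib

/-!
# A Borel-Cantelli lemma for summable gains
-/

open MeasureTheory Set Filter

namespace Pool.Agent.Helper94.CCA

/-- PROOF: `P {g t ≠ 0} ≤ ∫ g t` (Markov, `g t ≥ 0` and `g t ≥ 1` where it is nonzero), so the sum of
`P {g t ≠ 0}` is at most `C` and `measure_limsup_atTop_eq_zero` / `ae_eventually_notMem` applies. -/
theorem eventually_zero_of_sum_le {Ω : Type*} [MeasurableSpace Ω] (P : Measure Ω)
    [IsProbabilityMeasure P] (g : ℕ → Ω → ℝ) (hg : ∀ t, Integrable (g t) P)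
    (h01 : ∀ t ω, g t ω = 0 ∨ 1 ≤ g t ω) (C : ℝ)
    (hC : ∀ T, ∑ t ∈ Finset.range T, ∫ ω, g t ω ∂P ≤ C) :
    ∀ᵐ ω ∂P, ∀ᶠ t in atTop, g t ω = 0 := by
  have hnn : ∀ t ω, 0 ≤ g t ω := fun t ω => by
    rcases h01 t ω with h | h <;> linarith
  have hP : ∀ t, P {ω | 1 ≤ g t ω} ≤ ENNReal.ofReal (∫ ω, g t ω ∂P) := by
    intro t
    have h := mul_meas_ge_le_integral_of_nonneg (Eventually.of_forall (hnn t)) (hg t) 1
    rw [one_mul] at h
    rw [← ofReal_measureReal]
    exact ENNReal.ofReal_le_ofReal h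
  have hsum : (∑' t, P {ω | 1 ≤ g t ω}) ≤ ENNReal.ofReal C := by
    refine ENNReal.tsum_le_of_sum_range_le fun T => ?_
    refine (Finset.sum_le_sum fun t _ => hP t).trans ?_
    rw [← ENNReal.ofReal_sum_of_nonneg fun t _ => integral_nonneg (hnn t)]
    exact ENNReal.ofReal_le_ofReal (hC T)
  have hne : (∑' t, P {ω | 1 ≤ g t ω}) ≠ ⊤ := ne_top_of_le_ne_top ENNReal.ofReal_ne_top hsum
  filter_upwards [ae_eventually_notMem hne] with ω hω
  filter_upwards [hω] with t ht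
  rcases h01 t ω with h | h
  · exact h
  · exact absurd h ht

end Pool.Agent.Helper94.CCA
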