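import Pool.Agent.Helper94.CCA.Inv

/-!
# CCA: the energy on one edge, definitions
-/

open MeasureTheory Set

namespace Pool.Agent.Helper94.CCA

variable {V : Type*} {n κ : ℕ}

/-- The contribution of an update `x → x'` of a vertex with a neighbour in state `y`: `+1` if the
neighbour supports the update, `-1` if it does not, `0` if there is no update. -/
noncomputable def supC [NeZero κ] (x x' y : Fin κ) : ℝ :=
  if x' = x then 0 else if y = x + 1 then 1 else -1

/-- The gain of energy on an edge with states `x, y` which become `x', y'`. -/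
noncomputable def gainC [NeZero κ] (x x' y y' : Fin κ) : ℝ :=
  (if x' = y' then 1 else 0) - (if x = y then 1 else 0) - supC x x' y - supC y y' x

/-- The gain on the edge `(v, nb v a)` at time `t`. -/
noncomputable def gC (L : Lab V n) (κ θ : ℕ) [NeZero κ] (v : V) (a : Fin n) (t : ℕ)
    (ω : V → Fin κ) : ℝ :=
  gainC ((ccaL L κ θ)^[t] ω v) ((ccaL L κ θ)^[t + 1] ω v)
    ((ccaL L κ θ)^[t] ω (L.nb v a)) ((ccaL L κ θ)^[t + 1] ω (L.nb v a))

/-- The indicator of an update of `v` at time `t`. -/
noncomputable def xC (L : Lab V n) (κ θ : ℕ) [NeZero κ] (v : V) (t : ℕ) (ω : V → Fin κ) : ℝ :=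
  if (ccaL L κ θ)^[t + 1] ω v = (ccaL L κ θ)^[t] ω v then 0 else 1

/-- The indicator that `v` and its neighbour with label `a` agree at time `t`. -/
noncomputable def agC (L : Lab V n) (κ θ : ℕ) [NeZero κ] (v : V) (a : Fin n) (t : ℕ)
    (ω : V → Fin κ) : ℝ :=
  if (ccaL L κ θ)^[t] ω v = (ccaL L κ θ)^[t] ω (L.nb v a) then 1 else 0

end Pool.Agent.Helper94.CCA
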