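import Pool.Agent.Helper94.CCA.CcaPt

/-!
# CCA: fluctuation spreads over edges without gains
-/

open MeasureTheory Set

namespace Pool.Agent.Helper94.CCA

variable {V : Type*} {n κ : ℕ}

private lemma exists_next_update {α : Type*} (f : ℕ → α) (hf : {t : ℕ | f (t + 1) ≠ f t}.Infinite)
    (m : ℕ) : ∃ t, m ≤ t ∧ f t = f m ∧ f (t + 1) ≠ f t := by
  classical
  have hex : ∃ s, f (m + s + 1) ≠ f (m + s) := by
    obtain ⟨t, ht, hmt⟩ := hf.exists_gt m
    refine ⟨t - m, ?_⟩
    have : m + (t - m) = t := by omega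
    rw [this]
    exact ht
  refine ⟨m + Nat.find hex, Nat.le_add_right _ _, ?_, Nat.find_spec hex⟩
  have key : ∀ s, s ≤ Nat.find hex → f (m + s) = f m := by
    intro s
    induction s with
    | zero => intro _; simp
    | succ s ih =>
      intro hs
      have h1 := Nat.find_min hex (m := s) (by omega)
      have h2 : f (m + s + 1) = f (m + s) := by
        by_contra hne
        exact h1 hne
      rw [← add_assoc, h2, ih (by omega)]
  exact key _ le_rfl

/-- A vertex which is updated infinitely often next to a vertex which is eventually constant has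
infinitely many gains on the edge.
PROOF: suppose the neighbour `u` is updated only finitely often.  From some time on it has a
constant state `y` and there are no gains.  Take three consecutive update times of `v` after that
time: the states of `v` before them are `x`, `x + 1`, `x + 2`, and `gainC_stop` gives
`y ∈ {x, x+1}`, `y ∈ {x+1, x+2}` and `y ∈ {x+2, x+3}`, impossible for `κ ≥ 3`. -/
lemma spread_of_gain [NeZero κ] (hκ : 3 ≤ κ) (L : Lab V n) (θ : ℕ) (ω : V → Fin κ) (v : V)
    (a : Fin n) (h : ∀ᶠ t in Filter.atTop, gC L κ θ v a t ω = 0)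
    (hv : Fluct (ccaL L κ θ) ω v) : Fluct (ccaL L κ θ) ω (L.nb v a) := by
  classical
  by_contra hu
  obtain ⟨N1, hN1⟩ := Filter.eventually_atTop.1 h
  have hfin : {t : ℕ | (ccaL L κ θ)^[t + 1] ω (L.nb v a) ≠
      (ccaL L κ θ)^[t] ω (L.nb v a)}.Finite := by
    by_contra hinf
    exact hu hinf
  obtain ⟨N2, hN2⟩ := hfin.bddAbove
  set N := max N1 (N2 + 1) with hN
  have hconst : ∀ t, N ≤ t → (ccaL L κ θ)^[t + 1] ω (L.nb v a) =
      (ccaL L κ θ)^[t] ω (L.nb v a) := by
    intro t ht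
    by_contra hne
    have h1 : t ≤ N2 := hN2 hne
    have h2 : N2 + 1 ≤ N := le_max_right _ _
    omega
  have hy : ∀ t, N ≤ t → (ccaL L κ θ)^[t] ω (L.nb v a) =
      (ccaL L κ θ)^[N] ω (L.nb v a) := by
    intro t ht
    induction t, ht using Nat.le_induction with
    | base => rfl
    | succ t ht ih => rw [hconst t ht, ih]
  set y := (ccaL L κ θ)^[N] ω (L.nb v a) with hydef
  -- the update rule at `v`
  have hstep : ∀ t, N ≤ t → (ccaL L κ θ)^[t + 1] ω v ≠ (ccaL L κ θ)^[t] ω v →
      (ccaL L κ θ)^[t + 1] ω v = (ccaL L κ θ)^[t] ω v + 1 ∧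
      (y = (ccaL L κ θ)^[t] ω v ∨ y = (ccaL L κ θ)^[t] ω v + 1) := by
    intro t ht hne
    have h1 : (ccaL L κ θ)^[t + 1] ω v = (ccaL L κ θ)^[t] ω v + 1 := by
      have h2 := ccaL_cases L θ ((ccaL L κ θ)^[t] ω) v
      rw [← Function.iterate_succ_apply' (ccaL L κ θ) t ω] at h2
      exact h2.resolve_left hne
    refine ⟨h1, ?_⟩
    have h3 := hN1 t (le_trans (le_max_left _ _) ht)
    unfold gC at h3
    rw [hy t ht, hy (t + 1) (by omega), h1] at h3
    exact gainC_stop hκ h3
  have hnext := exists_next_update (fun t => (ccaL L κ θ)^[t] ω v) hv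
  obtain ⟨t1, ht1, -, hne1⟩ := hnext N
  obtain ⟨t2, ht2, he2, hne2⟩ := hnext (t1 + 1)
  obtain ⟨t3, ht3, he3, hne3⟩ := hnext (t2 + 1)
  obtain ⟨hs1, hy1⟩ := hstep t1 ht1 hne1
  obtain ⟨hs2, hy2⟩ := hstep t2 (by omega) hne2
  obtain ⟨hs3, hy3⟩ := hstep t3 (by omega) hne3
  rw [he3, hs2, he2, hs1] at hy3
  rw [he2, hs1] at hy2
  set x := (ccaL L κ θ)^[t1] ω v with hx
  have hv1 : ((1 : Fin κ) : ℕ) = 1 := by
    rw [Fin.val_one']
    exact Nat.mod_eq_of_lt (by omega)
  have hv2 : (((1 : Fin κ) + 1 : Fin κ) : ℕ) = 2 := by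
    rw [Fin.val_add, hv1]
    exact Nat.mod_eq_of_lt (by omega)
  have h10 : (1 : Fin κ) ≠ 0 := by
    intro h0
    rw [h0] at hv1
    simp at hv1
  have h20 : (1 : Fin κ) + 1 ≠ 0 := by
    intro h0
    rw [h0] at hv2
    simp at hv2
  have e1 : ∀ z : Fin κ, z ≠ z + 1 := by
    intro z hz
    exact h10 (left_eq_add.1 hz)
  have e2 : ∀ z : Fin κ, z ≠ z + 1 + 1 := by
    intro z hz
    rw [add_assoc] at hz
    exact h20 (left_eq_add.1 hz)
  rcases hy1 with h1 | h1
  · rcases hy2 with h2 | h2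
    · exact e1 x (h1.symm.trans h2)
    · exact e2 x (h1.symm.trans h2)
  · rcases hy3 with h3 | h3
    · exact e1 (x + 1) (h1.symm.trans h3)
    · exact e2 (x + 1) (h1.symm.trans h3)

end Pool.Agent.Helper94.CCA
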