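import Pool.Agent.Helper94.CCA.CcaSum
import Pool.Agent.Helper94.CCA.CcaSpread
import Pool.Agent.Helper94.CCA.BC

/-!
# CCA: conclusions
-/

open MeasureTheory Set

namespace Pool.Agent.Helper94.CCA

variable {V : Type*} {n κ : ℕ}

private lemma gC_cases [NeZero κ] (hκ : 3 ≤ κ) (L : Lab V n) (θ : ℕ) (v : V) (a : Fin n)
    (t : ℕ) (ω : V → Fin κ) : gC L κ θ v a t ω = 0 ∨ 1 ≤ gC L κ θ v a t ω := by
  unfold gC
  simp only [Function.iterate_succ_apply']
  exact gainC_cases hκ (ccaL_cases L θ _ v) (ccaL_cases L θ _ (L.nb v a))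

private lemma gC_nonneg [NeZero κ] (hκ : 3 ≤ κ) (L : Lab V n) (θ : ℕ) (v : V) (a : Fin n)
    (t : ℕ) (ω : V → Fin κ) : 0 ≤ gC L κ θ v a t ω := by
  rcases gC_cases hκ L θ v a t ω with h | h <;> linarith

private lemma xC_cases [NeZero κ] (L : Lab V n) (θ : ℕ) (v : V)
    (t : ℕ) (ω : V → Fin κ) : xC L κ θ v t ω = 0 ∨ 1 ≤ xC L κ θ v t ω := by
  unfold xC
  split_ifs
  · exact Or.inl rfl
  · exact Or.inr le_rfl

private lemma xC_nonneg [NeZero κ] (L : Lab V n) (θ : ℕ) (v : V)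
    (t : ℕ) (ω : V → Fin κ) : 0 ≤ xC L κ θ v t ω := by
  rcases xC_cases L θ v t ω with h | h <;> linarith

/-- Spreading of fluctuation for `2 θ ≥ n`.
PROOF: `gC ≥ 0` (`gainC_cases`, `ccaL_cases`, `Function.iterate_succ_apply'`) and
`(2 θ - n) ∫ xC ≥ 0`, so by `energy_sum` the partial sums of `∫ gC L κ θ v a t` are at most `n` for
every `v`, `a`; `eventually_zero_of_sum_le` and `spread_of_gain`. -/
theorem cca_spreads [NeZero κ] [Countable V] (hκ : 3 ≤ κ) (L : Lab V n) (θ : ℕ)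
    (hθ : n ≤ 2 * θ) : Spreads L (ccaL L κ θ) := by
  have hc : (0 : ℝ) ≤ 2 * (θ : ℝ) - n := by
    have : (n : ℝ) ≤ 2 * (θ : ℝ) := by exact_mod_cast hθ
    linarith
  have key : ∀ v a, ∀ᵐ ω ∂(law V κ), ∀ᶠ t in Filter.atTop, gC L κ θ v a t ω = 0 := by
    intro v a
    refine eventually_zero_of_sum_le (law V κ) (fun t => gC L κ θ v a t)
      (fun t => integrable_gC L κ θ v a t) (fun t ω => gC_cases hκ L θ v a t ω) n ?_
    intro T
    refine le_trans (Finset.sum_le_sum (fun t _ => ?_)) (energy_sum hκ L θ v T)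
    have h1 : ∫ ω, gC L κ θ v a t ω ∂(law V κ) ≤ ∑ b, ∫ ω, gC L κ θ v b t ω ∂(law V κ) :=
      Finset.single_le_sum (f := fun b => ∫ ω, gC L κ θ v b t ω ∂(law V κ))
        (fun b _ => integral_nonneg (fun ω => gC_nonneg hκ L θ v b t ω)) (Finset.mem_univ a)
    have h2 : 0 ≤ ∫ ω, xC L κ θ v t ω ∂(law V κ) :=
      integral_nonneg (fun ω => xC_nonneg L θ v t ω)
    have h3 := mul_nonneg hc h2
    linarith
  unfold Spreads
  have key2 : ∀ᵐ ω ∂(law V κ), ∀ v a, ∀ᶠ t in Filter.atTop, gC L κ θ v a t ω = 0 := by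
    rw [ae_all_iff]
    intro v
    rw [ae_all_iff]
    intro a
    exact key v a
  filter_upwards [key2] with ω hω v a hv
  exact spread_of_gain hκ L θ ω v a (hω v a) hv

private lemma sum_xC_le [NeZero κ] (hκ : 3 ≤ κ) (L : Lab V n) (θ : ℕ)
    (hθ : n < 2 * θ) (v : V) (T : ℕ) :
    ∑ t ∈ Finset.range T, ∫ ω, xC L κ θ v t ω ∂(law V κ) ≤ n / (2 * (2 * (θ : ℝ) - n)) := by
  have hc : (0 : ℝ) < 2 * (θ : ℝ) - n := by
    have : (n : ℝ) < 2 * (θ : ℝ) := by exact_mod_cast hθ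
    linarith
  rw [le_div_iff₀ (by linarith), Finset.sum_mul]
  refine le_trans (Finset.sum_le_sum (fun t _ => ?_)) (energy_sum hκ L θ v T)
  have h1 : 0 ≤ ∑ b, ∫ ω, gC L κ θ v b t ω ∂(law V κ) :=
    Finset.sum_nonneg (fun b _ => integral_nonneg (fun ω => gC_nonneg hκ L θ v b t ω))
  nlinarith [h1]

/-- The expected number of updates.  PROOF: `energy_sum`, `gC ≥ 0`, and `∫ xC` is the probability of
an update. -/
theorem cca_expected [NeZero κ] (hκ : 3 ≤ κ) (L : Lab V n) (θ : ℕ)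
    (hθ : n < 2 * θ) (v : V) (T : ℕ) :
    ∑ t ∈ Finset.range T, (law V κ {ω | (ccaL L κ θ)^[t + 1] ω v ≠ (ccaL L κ θ)^[t] ω v}).toReal ≤
      n / (2 * (2 * (θ : ℝ) - n)) := by
  refine le_trans (le_of_eq (Finset.sum_congr rfl (fun t _ => ?_))) (sum_xC_le hκ L θ hθ v T)
  have hm : Measurable (ccaL L κ θ) := measurable_ccaL L κ θ
  have hms : MeasurableSet {ω : V → Fin κ | (ccaL L κ θ)^[t + 1] ω v ≠ (ccaL L κ θ)^[t] ω v} := by
    have h1 : Measurable fun ω : V → Fin κ => (ccaL L κ θ)^[t + 1] ω v :=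
      (measurable_pi_apply v).comp (hm.iterate (t + 1))
    have h2 : Measurable fun ω : V → Fin κ => (ccaL L κ θ)^[t] ω v :=
      (measurable_pi_apply v).comp (hm.iterate t)
    exact (measurableSet_eq_fun h1 h2).compl
  have hx : (fun ω => xC L κ θ v t ω) =
      ({ω : V → Fin κ | (ccaL L κ θ)^[t + 1] ω v ≠ (ccaL L κ θ)^[t] ω v}).indicator
        (fun _ => (1 : ℝ)) := by
    funext ω
    unfold xC
    by_cases h : (ccaL L κ θ)^[t + 1] ω v = (ccaL L κ θ)^[t] ω v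
    · rw [if_pos h, Set.indicator_of_notMem]
      simpa using h
    · rw [if_neg h, Set.indicator_of_mem]
      exact h
  rw [hx, integral_indicator hms]
  simp [Measure.real]

/-- Fixation for `2 θ > n`.  PROOF: the partial sums of `∫ xC` are bounded; apply
`eventually_zero_of_sum_le` to `xC`. -/
theorem cca_fixates [NeZero κ] (hκ : 3 ≤ κ) (L : Lab V n) (θ : ℕ)
    (hθ : n < 2 * θ) (v : V) : ∀ᵐ ω ∂(law V κ), ¬ Fluct (ccaL L κ θ) ω v := by
  have key : ∀ᵐ ω ∂(law V κ), ∀ᶠ t in Filter.atTop, xC L κ θ v t ω = 0 :=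
    eventually_zero_of_sum_le (law V κ) (fun t => xC L κ θ v t)
      (fun t => integrable_xC L κ θ v t) (fun t ω => xC_cases L θ v t ω)
      (n / (2 * (2 * (θ : ℝ) - n))) (fun T => sum_xC_le hκ L θ hθ v T)
  filter_upwards [key] with ω hω hf
  obtain ⟨N, hN⟩ := Filter.eventually_atTop.1 hω
  apply hf
  refine (Set.finite_Iio N).subset ?_
  intro t ht
  by_contra hlt
  have h1 := hN t (not_lt.1 hlt)
  unfold xC at h1
  have h2 : (ccaL L κ θ)^[t + 1] ω v ≠ (ccaL L κ θ)^[t] ω v := ht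
  rw [if_neg h2] at h1
  norm_num at h1

end Pool.Agent.Helper94.CCA
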