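import Pool.Agent.Helper94.CCA.CcaDefs

/-!
# CCA: the energy inequality on one edge
-/

open MeasureTheory Set

namespace Pool.Agent.Helper94.CCA

variable {V : Type*} {n κ : ℕ}

private lemma one_ne' [NeZero κ] (hκ : 3 ≤ κ) : (1 : Fin κ) ≠ 0 := by
  intro h
  have := congrArg Fin.val h
  rw [Fin.val_zero, Fin.val_one', Nat.mod_eq_of_lt (by omega)] at this
  omega

private lemma two_ne' [NeZero κ] (hκ : 3 ≤ κ) : (1 : Fin κ) + 1 ≠ 0 := by
  intro h
  have := congrArg Fin.val h
  rw [Fin.val_add, Fin.val_zero, Fin.val_one', Nat.mod_eq_of_lt (show 1 < κ by omega),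
    Nat.mod_eq_of_lt (show 1 + 1 < κ by omega)] at this
  omega

private lemma add_ne' [NeZero κ] (hκ : 3 ≤ κ) (x : Fin κ) : x + 1 ≠ x := by
  intro h
  exact one_ne' hκ (by simpa using h)

private lemma add2_ne' [NeZero κ] (hκ : 3 ≤ κ) (x : Fin κ) : x + 1 + 1 ≠ x := by
  intro h
  rw [add_assoc] at h
  exact two_ne' hκ (by simpa using h)

lemma gainC_cases [NeZero κ] (hκ : 3 ≤ κ) {x x' y y' : Fin κ} (hx : x' = x ∨ x' = x + 1)
    (hy : y' = y ∨ y' = y + 1) : gainC x x' y y' = 0 ∨ 1 ≤ gainC x x' y y' := by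
  have h1 := add_ne' hκ x
  have h1' := add_ne' hκ y
  have h2 := add2_ne' hκ x
  have h2' := add2_ne' hκ y
  rcases hx with rfl | rfl <;> rcases hy with rfl | rfl
  · left; simp [gainC, supC]
  · by_cases hxy : x' = y
    · subst hxy; left; simp [gainC, supC, h1, Ne.symm h1]
    · by_cases hxy1 : x' = y + 1
      · subst hxy1; left; simp [gainC, supC, h1']
      · right; simp [gainC, supC, hxy, hxy1, h1']
  · by_cases hxy : x = y'
    · subst hxy; left; simp [gainC, supC, h1, Ne.symm h1]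
    · by_cases hxy1 : y' = x + 1
      · subst hxy1; left; simp [gainC, supC, h1, Ne.symm h1]
      · right; simp [gainC, supC, hxy, hxy1, h1, Ne.symm hxy1]
  · by_cases hxy : x = y
    · subst hxy; right; simp [gainC, supC, h1, Ne.symm h1]
    · by_cases hxy1 : y = x + 1
      · subst hxy1; left
        have hk : κ ≠ 1 := by omega
        simp [gainC, supC, h1, Ne.symm h1, h1', Ne.symm h2, hk]
      · by_cases hxy2 : x = y + 1
        · subst hxy2; left; simp [gainC, supC, h1, h1', Ne.symm h2']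
        · right; simp [gainC, supC, hxy, hxy1, hxy2, h1, h1']

/-- If only `x` is updated and there is no gain, then `y ∈ {x, x + 1}`. -/
lemma gainC_stop [NeZero κ] (hκ : 3 ≤ κ) {x y : Fin κ} (h : gainC x (x + 1) y y = 0) :
    y = x ∨ y = x + 1 := by
  by_contra hne
  push Not at hne
  have h1 := add_ne' hκ x
  simp [gainC, supC, hne.2, h1, Ne.symm hne.1, Ne.symm hne.2] at h

lemma ccaL_cases [NeZero κ] (L : Lab V n) (θ : ℕ) (ξ : V → Fin κ) (v : V) :
    ccaL L κ θ ξ v = ξ v ∨ ccaL L κ θ ξ v = ξ v + 1 := by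
  unfold ccaL
  split_ifs
  · exact Or.inr rfl
  · exact Or.inl rfl

/-- The total support of an update. -/
lemma sum_supC [NeZero κ] (hκ : 3 ≤ κ) (L : Lab V n) (θ : ℕ) (ξ : V → Fin κ) (v : V) :
    (2 * (θ : ℝ) - n) * (if ccaL L κ θ ξ v = ξ v then 0 else 1) ≤
      ∑ a, supC (ξ v) (ccaL L κ θ ξ v) (ξ (L.nb v a)) := by
  by_cases hc : θ ≤ (Finset.univ.filter fun a => ξ (L.nb v a) = ξ v + 1).card
  · have h1 : ccaL L κ θ ξ v = ξ v + 1 := by unfold ccaL; rw [if_pos hc]
    rw [h1, if_neg (add_ne' hκ _), mul_one]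
    have h2 : ∀ a, supC (ξ v) (ξ v + 1) (ξ (L.nb v a)) =
        2 * (if ξ (L.nb v a) = ξ v + 1 then 1 else 0) - 1 := by
      intro a
      unfold supC
      rw [if_neg (add_ne' hκ _)]
      split_ifs <;> norm_num
    simp_rw [h2]
    rw [Finset.sum_sub_distrib, ← Finset.mul_sum, Finset.sum_boole]
    simp only [Finset.sum_const, Finset.card_univ, Fintype.card_fin, nsmul_eq_mul, mul_one]
    have : (θ : ℝ) ≤ ((Finset.univ.filter fun a => ξ (L.nb v a) = ξ v + 1).card : ℝ) := by
      exact_mod_cast hc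
    linarith
  · have h1 : ccaL L κ θ ξ v = ξ v := by unfold ccaL; rw [if_neg hc]
    rw [h1, if_pos rfl, mul_zero]
    simp [supC]

end Pool.Agent.Helper94.CCA
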