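import Pool.Agent.Helper94.CCA.CcaDefs

/-!
# Integrability of observables
-/

open MeasureTheory Set

namespace Pool.Agent.Helper94.CCA

variable {V : Type*} {n κ : ℕ}

/-- A function of finitely many observables with finitely many values is integrable. -/
lemma integrable_of_fin [NeZero κ] {F : (V → Fin κ) → V → Fin κ} (hF : Measurable F)
    (t : ℕ) (v u : V) (φ : Fin κ → Fin κ → Fin κ → Fin κ → Fin κ → Fin κ → ℝ) :
    Integrable (fun ω => φ (F^[t] ω v) (F^[t] ω u) (F^[t + 1] ω v) (F^[t + 1] ω u)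
      (F^[t + 2] ω v) (F^[t + 2] ω u)) (law V κ) := by
  have hm : ∀ s : ℕ, ∀ w : V, Measurable (fun ω : V → Fin κ => F^[s] ω w) := fun s w =>
    (measurable_pi_apply w).comp (hF.iterate s)
  let ψ : Fin κ × Fin κ × Fin κ × Fin κ × Fin κ × Fin κ → ℝ := fun p =>
    φ p.1 p.2.1 p.2.2.1 p.2.2.2.1 p.2.2.2.2.1 p.2.2.2.2.2
  let g : (V → Fin κ) → Fin κ × Fin κ × Fin κ × Fin κ × Fin κ × Fin κ := fun ω =>
    (F^[t] ω v, F^[t] ω u, F^[t + 1] ω v, F^[t + 1] ω u, F^[t + 2] ω v, F^[t + 2] ω u)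
  have hg : Measurable g := (hm t v).prodMk ((hm t u).prodMk ((hm (t + 1) v).prodMk
    ((hm (t + 1) u).prodMk ((hm (t + 2) v).prodMk (hm (t + 2) u)))))
  have hψ : Measurable ψ := measurable_of_countable _
  have hc : Measurable (fun ω => ψ (g ω)) := hψ.comp hg
  obtain ⟨C, hC⟩ : ∃ C : ℝ, ∀ p, ‖ψ p‖ ≤ C := by
    refine ⟨∑ p, ‖ψ p‖, fun p => ?_⟩
    exact Finset.single_le_sum (f := fun p => ‖ψ p‖) (fun _ _ => norm_nonneg _)
      (Finset.mem_univ p)
  exact Integrable.of_bound hc.aestronglyMeasurable C (Filter.Eventually.of_forall fun ω => hC (g ω))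

lemma integrable_gC (L : Lab V n) (κ θ : ℕ) [NeZero κ] (v : V) (a : Fin n) (t : ℕ) :
    Integrable (gC L κ θ v a t) (law V κ) :=
  integrable_of_fin (measurable_ccaL L κ θ) t v (L.nb v a)
    (fun x y x' y' _ _ => gainC x x' y y')

lemma integrable_xC (L : Lab V n) (κ θ : ℕ) [NeZero κ] (v : V) (t : ℕ) :
    Integrable (xC L κ θ v t) (law V κ) :=
  integrable_of_fin (measurable_ccaL L κ θ) t v v
    (fun x _ x' _ _ _ => if x' = x then 0 else 1)

lemma integrable_agC (L : Lab V n) (κ θ : ℕ) [NeZero κ] (v : V) (a : Fin n) (t : ℕ) :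
    Integrable (agC L κ θ v a t) (law V κ) :=
  integrable_of_fin (measurable_ccaL L κ θ) t v (L.nb v a)
    (fun x y _ _ _ _ => if x = y then 1 else 0)

end Pool.Agent.Helper94.CCA
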