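import Pool.Agent.Helper94.CCA.CcaPt
import Pool.Agent.Helper94.CCA.Integ

/-!
# CCA: the energy argument
-/

open MeasureTheory Set

namespace Pool.Agent.Helper94.CCA

variable {V : Type*} {n κ : ℕ}

/-- The support of the update of `v` by its neighbour with label `a`. -/
private noncomputable def spC (L : Lab V n) (κ θ : ℕ) [NeZero κ] (v : V) (a : Fin n) (t : ℕ)
    (ω : V → Fin κ) : ℝ :=
  supC ((ccaL L κ θ)^[t] ω v) ((ccaL L κ θ)^[t + 1] ω v) ((ccaL L κ θ)^[t] ω (L.nb v a))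

private lemma integrable_spC (L : Lab V n) (κ θ : ℕ) [NeZero κ] (v : V) (a : Fin n) (t : ℕ) :
    Integrable (spC L κ θ v a t) (law V κ) :=
  integrable_of_fin (measurable_ccaL L κ θ) t v (L.nb v a)
    (fun x y x' _ _ _ => supC x x' y)

private lemma integral_spC [NeZero κ] (L : Lab V n) (θ : ℕ) (v w : V) (a : Fin n) (t : ℕ) :
    ∫ ω, spC L κ θ v a t ω ∂(law V κ) = ∫ ω, spC L κ θ w a t ω ∂(law V κ) := by
  have h := integral_edge (κ := κ) (equi_ccaL L κ θ)
    (fun α β _ v => supC (α v) (β v) (α (L.nb v a)))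
    (by
      intro σ hσ α β γ v
      simp only [Function.comp]
      rw [hσ v a]) t v w
  exact h

private lemma gC_eq [NeZero κ] (L : Lab V n) (θ : ℕ) (v : V) (a : Fin n) (t : ℕ)
    (ω : V → Fin κ) :
    gC L κ θ v a t ω = agC L κ θ v a (t + 1) ω - agC L κ θ v a t ω - spC L κ θ v a t ω
      - spC L κ θ (L.nb v a) a t ω := by
  unfold gC gainC agC spC
  rw [L.nb_nb v a]

/-- The energy inequality in expectation.
PROOF: by definition `gC = agC (t+1) - agC t - s v - s' v` with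
`s v = supC (ξ_t v) (ξ_{t+1} v) (ξ_t (nb v a))` and `s' v` the same with `v` and `nb v a`
exchanged, i.e. `s' v = s (nb v a)` by `L.nb_nb`.  By `integral_edge` (with
`φ α β γ v = supC (α v) (β v) (α (L.nb v a))`) the integrals of `s v` and `s (nb v a)` agree.  Sum
over `a` and use `sum_supC` for `ξ = (ccaL L κ θ)^[t] ω` (`Function.iterate_succ_apply'`). -/
lemma energy_step [NeZero κ] (hκ : 3 ≤ κ) (L : Lab V n) (θ : ℕ) (v : V) (t : ℕ) :
    (∑ a, ∫ ω, gC L κ θ v a t ω ∂(law V κ)) +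
      2 * ((2 * (θ : ℝ) - n) * ∫ ω, xC L κ θ v t ω ∂(law V κ)) ≤
    (∑ a, ∫ ω, agC L κ θ v a (t + 1) ω ∂(law V κ)) - ∑ a, ∫ ω, agC L κ θ v a t ω ∂(law V κ) := by
  have h1 : ∀ a, ∫ ω, gC L κ θ v a t ω ∂(law V κ) =
      ∫ ω, agC L κ θ v a (t + 1) ω ∂(law V κ) - ∫ ω, agC L κ θ v a t ω ∂(law V κ)
        - 2 * ∫ ω, spC L κ θ v a t ω ∂(law V κ) := by
    intro a
    have e1 : ∫ ω, gC L κ θ v a t ω ∂(law V κ) =
        ∫ ω, (agC L κ θ v a (t + 1) ω - agC L κ θ v a t ω - spC L κ θ v a t ω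
          - spC L κ θ (L.nb v a) a t ω) ∂(law V κ) := by
      congr 1
      funext ω
      exact gC_eq L θ v a t ω
    rw [e1, integral_sub, integral_sub, integral_sub]
    · rw [integral_spC L θ (L.nb v a) v a t]
      ring
    · exact integrable_agC L κ θ v a (t + 1)
    · exact integrable_agC L κ θ v a t
    · exact (integrable_agC L κ θ v a (t + 1)).sub (integrable_agC L κ θ v a t)
    · exact integrable_spC L κ θ v a t
    · exact ((integrable_agC L κ θ v a (t + 1)).sub (integrable_agC L κ θ v a t)).sub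
        (integrable_spC L κ θ v a t)
    · exact integrable_spC L κ θ (L.nb v a) a t
  have h2 : (2 * (θ : ℝ) - n) * ∫ ω, xC L κ θ v t ω ∂(law V κ) ≤
      ∑ a, ∫ ω, spC L κ θ v a t ω ∂(law V κ) := by
    rw [← integral_const_mul, ← integral_finsetSum _ (fun a _ => integrable_spC L κ θ v a t)]
    refine integral_mono ((integrable_xC L κ θ v t).const_mul _)
      (integrable_finsetSum _ (fun a _ => integrable_spC L κ θ v a t)) ?_
    intro ω
    have h := sum_supC hκ L θ ((ccaL L κ θ)^[t] ω) v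
    simp only [xC, spC, Function.iterate_succ_apply']
    exact h
  rw [Finset.sum_congr rfl (fun a _ => h1 a), Finset.sum_sub_distrib, Finset.sum_sub_distrib,
    ← Finset.mul_sum]
  linarith

private lemma agC_nonneg [NeZero κ] (L : Lab V n) (θ : ℕ) (v : V) (a : Fin n) (t : ℕ)
    (ω : V → Fin κ) : 0 ≤ agC L κ θ v a t ω := by
  unfold agC
  split_ifs <;> norm_num

private lemma agC_le_one [NeZero κ] (L : Lab V n) (θ : ℕ) (v : V) (a : Fin n) (t : ℕ)
    (ω : V → Fin κ) : agC L κ θ v a t ω ≤ 1 := by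
  unfold agC
  split_ifs <;> norm_num

/-- The total gain is bounded.  PROOF: telescoping, and `0 ≤ ∑ a, ∫ agC ≤ n`. -/
theorem energy_sum [NeZero κ] (hκ : 3 ≤ κ) (L : Lab V n) (θ : ℕ) (v : V) (T : ℕ) :
    ∑ t ∈ Finset.range T, ((∑ a, ∫ ω, gC L κ θ v a t ω ∂(law V κ)) +
      2 * ((2 * (θ : ℝ) - n) * ∫ ω, xC L κ θ v t ω ∂(law V κ))) ≤ n := by
  set S : ℕ → ℝ := fun t => ∑ a, ∫ ω, agC L κ θ v a t ω ∂(law V κ) with hS
  have h1 : ∑ t ∈ Finset.range T, ((∑ a, ∫ ω, gC L κ θ v a t ω ∂(law V κ)) +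
      2 * ((2 * (θ : ℝ) - n) * ∫ ω, xC L κ θ v t ω ∂(law V κ))) ≤
      ∑ t ∈ Finset.range T, (S (t + 1) - S t) :=
    Finset.sum_le_sum (fun t _ => energy_step hκ L θ v t)
  rw [Finset.sum_range_sub] at h1
  have h2 : 0 ≤ S 0 := Finset.sum_nonneg (fun a _ => integral_nonneg (fun ω => agC_nonneg L θ v a 0 ω))
  have h3 : S T ≤ n := by
    have : S T ≤ ∑ _a : Fin n, (1 : ℝ) := by
      refine Finset.sum_le_sum (fun a _ => ?_)
      have h4 : ∫ ω, agC L κ θ v a T ω ∂(law V κ) ≤ ∫ _ω, (1 : ℝ) ∂(law V κ) :=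
        integral_mono (integrable_agC L κ θ v a T) (integrable_const _)
          (fun ω => agC_le_one L θ v a T ω)
      simpa using h4
    simpa using this
  linarith

end Pool.Agent.Helper94.CCA
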