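import Pool.Agent.Helper94.CCA.Inv

/-!
# Disjoint blocks of coordinates are independent
-/

open MeasureTheory Set

namespace Pool.Agent.Helper94.CCA

variable {V : Type*} {n κ : ℕ}

/-- PROOF: `B` depends on the coordinates in `K` and the preimage on those in `σ '' K`, which is
disjoint from `K`.  Independence of the coordinates under `Measure.infinitePi`
(`ProbabilityTheory.iIndepFun_infinitePi`, `iIndepFun.indepFun_finset`); the
second factor equals `law B` by `law_inv`. -/
theorem law_cylinder_inter [NeZero κ] (σ : V ≃ V) (K : Finset V) (hK : ∀ v ∈ K, σ v ∉ K)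
    (B : Set (V → Fin κ)) (hB : MeasurableSet B)
    (hBK : ∀ ω ω' : V → Fin κ, (∀ v ∈ K, ω v = ω' v) → (ω ∈ B ↔ ω' ∈ B)) :
    law V κ (B ∩ (fun ω : V → Fin κ => ω ∘ σ) ⁻¹' B) = law V κ B * law V κ B := by
  classical
  have hind : ProbabilityTheory.iIndepFun (fun (i : V) (ω : V → Fin κ) => ω i) (law V κ) := by
    unfold law
    exact ProbabilityTheory.iIndepFun_infinitePi (X := fun _ (x : Fin κ) => x)
      (fun _ => measurable_id)
  set T : Finset V := K.map σ.toEmbedding with hT
  have hmem : ∀ v ∈ K, σ v ∈ T := fun v hv => Finset.mem_map.2 ⟨v, hv, rfl⟩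
  have hdisj : Disjoint K T := by
    rw [Finset.disjoint_left]
    intro v hv hvT
    obtain ⟨w, hw, hwv⟩ := Finset.mem_map.1 hvT
    have : σ w = v := hwv
    exact hK w hw (this ▸ hv)
  have h2 := hind.indepFun_finset K T hdisj (fun i => measurable_pi_apply i)
  set S : Set (K → Fin κ) := {x | (fun v : V => if h : v ∈ K then x ⟨v, h⟩ else 0) ∈ B} with hS
  set S' : Set (T → Fin κ) := {y | (fun i : K => y ⟨σ i.1, hmem i.1 i.2⟩) ∈ S} with hS'
  have hBS : B = (fun (ω : V → Fin κ) (i : K) => ω i) ⁻¹' S := by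
    ext ω
    rw [mem_preimage, hS, mem_ofPred_eq]
    refine hBK _ _ (fun v hv => ?_)
    simp [hv]
  have hBS' : (fun ω : V → Fin κ => ω ∘ σ) ⁻¹' B =
      (fun (ω : V → Fin κ) (i : T) => ω i) ⁻¹' S' := by
    ext ω
    rw [mem_preimage, mem_preimage, hS', mem_ofPred_eq]
    conv_lhs => rw [hBS]
    rfl
  have h3 := h2.measure_inter_preimage_eq_mul S S' (Set.toFinite S).measurableSet
    (Set.toFinite S').measurableSet
  have h4 : law V κ ((fun ω : V → Fin κ => ω ∘ σ) ⁻¹' B) = law V κ B :=
    (law_inv σ).measure_preimage hB.nullMeasurableSet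
  rw [← hBS, ← hBS', h4] at h3
  exact h3

end Pool.Agent.Helper94.CCA
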