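import Mathlib

/-!
# Cyclic cellular automata and the Greenberg-Hastings model on regular trees: definitions

The general definitions are for an arbitrary simple graph.  The proofs work with a labelling of the
edges (`Lab`), which every regular tree carries.
-/

open MeasureTheory Set

namespace Pool.Agent.Helper94.CCA

variable {V : Type*}

open Classical in
/-- One step of the cyclic cellular automaton with `κ` colours and threshold `θ` on the graph `G`:
a vertex `v` advances its colour by `1` modulo `κ` if at least `θ` neighbours have the colour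
`ξ v + 1`, and otherwise keeps its colour. -/
noncomputable def ccaStep (G : SimpleGraph V) (κ θ : ℕ) [NeZero κ] (ξ : V → Fin κ) : V → Fin κ :=
  fun v => if θ ≤ {u : V | G.Adj v u ∧ ξ u = ξ v + 1}.ncard then ξ v + 1 else ξ v

open Classical in
/-- One step of the Greenberg-Hastings model with `κ` states and threshold `θ` on the graph `G`:
the state of `v` advances by `1` modulo `κ` if it is nonzero or if at least `θ` neighbours are in
the state `1`, and otherwise it stays `0`. -/
noncomputable def ghmStep (G : SimpleGraph V) (κ θ : ℕ) [NeZero κ] (γ : V → Fin κ) : V → Fin κ :=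
  fun v => if γ v ≠ 0 ∨ θ ≤ {u : V | G.Adj v u ∧ γ u = 1}.ncard then γ v + 1 else 0

/-- The vertex `v` fluctuates under the dynamics `F` started from `ω`: its state changes
infinitely often. -/
def Fluct {κ : ℕ} (F : (V → Fin κ) → V → Fin κ) (ω : V → Fin κ) (v : V) : Prop :=
  {t : ℕ | F^[t + 1] ω v ≠ F^[t] ω v}.Infinite

/-- The initial law: the colours of the vertices are independent and uniform on
`{0, ..., κ - 1}`. -/
noncomputable def law (V : Type*) (κ : ℕ) [NeZero κ] : Measure (V → Fin κ) :=
  Measure.infinitePi fun _ : V => (PMF.uniformOfFintype (Fin κ)).toMeasure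

instance instIsProbabilityMeasureLaw (κ : ℕ) [NeZero κ] : IsProbabilityMeasure (law V κ) := by
  unfold law; infer_instance

/-! ### Labelled regular structures -/

/-- A labelled `n`-regular structure: `nb v a` is the neighbour of `v` along the edge with label
`a`.  The group of label-preserving bijections is transitive and moves finite sets off themselves,
and `V` is connected. -/
structure Lab (V : Type*) (n : ℕ) where
  /-- The neighbour of `v` along the edge with label `a`. -/
  nb : V → Fin n → V
  nb_nb : ∀ v a, nb (nb v a) a = v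
  nb_inj : ∀ v, Function.Injective (nb v)
  trans : ∀ x y : V, ∃ σ : V ≃ V, (∀ v a, σ (nb v a) = nb (σ v) a) ∧ σ x = y
  wander : ∀ K : Finset V, ∃ σ : V ≃ V, (∀ v a, σ (nb v a) = nb (σ v) a) ∧ ∀ v ∈ K, σ v ∉ K
  conn : ∀ S : Set V, S.Nonempty → (∀ v ∈ S, ∀ a, nb v a ∈ S) → S = univ

variable {n : ℕ}

/-- Label-preserving bijections. -/
def IsAut (L : Lab V n) (σ : V ≃ V) : Prop := ∀ v a, σ (L.nb v a) = L.nb (σ v) a

/-- The CCA step in terms of a labelling. -/
def ccaL (L : Lab V n) (κ θ : ℕ) [NeZero κ] (ξ : V → Fin κ) : V → Fin κ :=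
  fun v => if θ ≤ (Finset.univ.filter fun a => ξ (L.nb v a) = ξ v + 1).card then ξ v + 1 else ξ v

/-- The GHM step in terms of a labelling. -/
def ghmL (L : Lab V n) (κ θ : ℕ) [NeZero κ] (γ : V → Fin κ) : V → Fin κ :=
  fun v => if γ v ≠ 0 ∨ θ ≤ (Finset.univ.filter fun a => γ (L.nb v a) = 1).card
    then γ v + 1 else 0

/-- A dynamics which commutes with all label-preserving bijections. -/
def Equi (L : Lab V n) {κ : ℕ} (F : (V → Fin κ) → V → Fin κ) : Prop :=
  ∀ σ : V ≃ V, IsAut L σ → ∀ ω : V → Fin κ, F (ω ∘ σ) = F ω ∘ σ

/-- Fluctuation spreads to the neighbours, almost surely. -/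
def Spreads (L : Lab V n) {κ : ℕ} [NeZero κ] (F : (V → Fin κ) → V → Fin κ) : Prop :=
  ∀ᵐ ω ∂(law V κ), ∀ v a, Fluct F ω v → Fluct F ω (L.nb v a)

/-! ### The words model of the regular tree -/

/-- Vertices of the `(d + 1)`-regular tree: words in `d + 1` letters without equal adjacent
letters. -/
abbrev Vert (d : ℕ) := {l : List (Fin (d + 1)) // l.IsChain (· ≠ ·)}

/-- The empty word. -/
def root {d : ℕ} : Vert d := ⟨[], by simp⟩

/-- The neighbour of `v` along the edge with label `a`: cancel the first letter if it is `a`,
otherwise put the letter `a` in front. -/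
def wnb {d : ℕ} (v : Vert d) (a : Fin (d + 1)) : Vert d :=
  if h : v.1.head? = some a then ⟨v.1.tail, v.2.tail⟩ else ⟨a :: v.1, by
    rw [List.isChain_cons]
    refine ⟨?_, v.2⟩
    intro y hy hya
    subst hya
    exact h hy⟩

end Pool.Agent.Helper94.CCA
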