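import Pool.Agent.Helper94.CCA.Inv

/-!
# GHM: excitations and defects, definitions
-/

open MeasureTheory Set

namespace Pool.Agent.Helper94.CCA

variable {V : Type*} {n κ : ℕ}

/-- The indicator that `v` is excited (in state `1`) at time `t`. -/
noncomputable def exc (L : Lab V n) (κ θ : ℕ) [NeZero κ] (t : ℕ) (v : V) (ω : V → Fin κ) : ℝ :=
  if (ghmL L κ θ)^[t] ω v = 1 then 1 else 0

/-- The defect of an excitation of `v` at time `t + 1` on the edge with label `a`: the neighbour is
excited neither one step before nor one step after. -/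
noncomputable def defG (L : Lab V n) (κ θ : ℕ) [NeZero κ] (v : V) (a : Fin n) (t : ℕ)
    (ω : V → Fin κ) : ℝ :=
  exc L κ θ (t + 1) v ω - exc L κ θ (t + 1) v ω * exc L κ θ t (L.nb v a) ω -
    exc L κ θ (t + 1) v ω * exc L κ θ (t + 2) (L.nb v a) ω

end Pool.Agent.Helper94.CCA
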