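import Pool.Agent.Helper94.CCA.GhmDefs

/-!
# GHM: fluctuation is excitation infinitely often
-/

open MeasureTheory Set

namespace Pool.Agent.Helper94.CCA

variable {V : Type*} {n κ : ℕ}

private lemma val_succ [NeZero κ] (hκ : 3 ≤ κ) (x : Fin κ) :
    (x + 1).val = if x.val + 1 = κ then 0 else x.val + 1 := by
  have h1 : ((1 : Fin κ) : ℕ) = 1 := by
    rw [Fin.val_one', Nat.mod_eq_of_lt (by omega)]
  rw [Fin.val_add, h1]
  have hx := x.2
  split_ifs with h
  · rw [h, Nat.mod_self]
  · exact Nat.mod_eq_of_lt (by omega)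

private lemma val_one [NeZero κ] (hκ : 3 ≤ κ) : ((1 : Fin κ) : ℕ) = 1 := by
  rw [Fin.val_one', Nat.mod_eq_of_lt (by omega)]

private lemma one_ne_zero'' [NeZero κ] (hκ : 3 ≤ κ) : (1 : Fin κ) ≠ 0 := by
  intro h
  have := congrArg Fin.val h
  rw [val_one hκ] at this
  simp at this

private lemma succ_ne [NeZero κ] (hκ : 3 ≤ κ) (x : Fin κ) : x + 1 ≠ x := by
  intro h
  have := congrArg Fin.val h
  rw [val_succ hκ] at this
  have hx := x.2
  split_ifs at this <;> omega

private lemma step_of_ne [NeZero κ] (L : Lab V n) (θ : ℕ) (ω : V → Fin κ) (v : V) (t : ℕ)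
    (h : (ghmL L κ θ)^[t] ω v ≠ 0) :
    (ghmL L κ θ)^[t + 1] ω v = (ghmL L κ θ)^[t] ω v + 1 := by
  rw [Function.iterate_succ_apply']
  exact if_pos (Or.inl h)

private lemma step_of_zero [NeZero κ] (L : Lab V n) (θ : ℕ) (ω : V → Fin κ) (v : V) (t : ℕ)
    (h : (ghmL L κ θ)^[t] ω v = 0) :
    (ghmL L κ θ)^[t + 1] ω v = 1 ∨ (ghmL L κ θ)^[t + 1] ω v = 0 := by
  rw [Function.iterate_succ_apply']
  generalize hγ : (ghmL L κ θ)^[t] ω = γ at h
  unfold ghmL
  split_ifs with h1
  · left
    rw [h, zero_add]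
  · right
    rfl

private lemma reach_zero [NeZero κ] (hκ : 3 ≤ κ) (L : Lab V n) (θ : ℕ) (ω : V → Fin κ) (v : V) :
    ∀ m t : ℕ, κ - ((ghmL L κ θ)^[t] ω v).val ≤ m →
      ∃ t', t ≤ t' ∧ (ghmL L κ θ)^[t'] ω v = 0 := by
  intro m
  induction m with
  | zero =>
    intro t ht
    have := ((ghmL L κ θ)^[t] ω v).2
    omega
  | succ m ih =>
    intro t ht
    by_cases h : (ghmL L κ θ)^[t] ω v = 0
    · exact ⟨t, le_rfl, h⟩
    · have h1 := step_of_ne L θ ω v t h
      have h2 := congrArg Fin.val h1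
      rw [val_succ hκ] at h2
      have h3 := ((ghmL L κ θ)^[t] ω v).2
      by_cases h4 : ((ghmL L κ θ)^[t] ω v).val + 1 = κ
      · rw [if_pos h4] at h2
        refine ⟨t + 1, by omega, ?_⟩
        ext
        rw [h2]
        simp
      · rw [if_neg h4] at h2
        obtain ⟨t', ht', hz⟩ := ih (t + 1) (by omega)
        exact ⟨t', by omega, hz⟩

/-- A vertex changes its state infinitely often iff it is excited infinitely often.
PROOF: if the state is `1` at time `t` it is `2 ≠ 1` at time `t + 1`, a change.  Conversely assume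
that the state is never `1` after time `t₀`.  A vertex in state `0` after `t₀` stays `0` forever
(the only other possible successor of `0` is `1`).  A vertex in a state `s ≠ 0` advances by `1` as
long as it is nonzero, so it reaches `0` within `κ` steps.  So the state is eventually constant. -/
theorem fluct_iff_exc [NeZero κ] (hκ : 3 ≤ κ) (L : Lab V n) (θ : ℕ) (ω : V → Fin κ) (v : V) :
    Fluct (ghmL L κ θ) ω v ↔ ∃ᶠ t in Filter.atTop, (ghmL L κ θ)^[t] ω v = 1 := by
  have h0 : Fluct (ghmL L κ θ) ω v ↔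
      ∃ᶠ t in Filter.atTop, (ghmL L κ θ)^[t + 1] ω v ≠ (ghmL L κ θ)^[t] ω v := by
    unfold Fluct
    exact Nat.frequently_atTop_iff_infinite.symm
  rw [h0]
  constructor
  · intro h
    by_contra hcon
    rw [Filter.not_frequently, Filter.eventually_atTop] at hcon
    obtain ⟨t₀, ht₀⟩ := hcon
    obtain ⟨t₁, ht₁, hz⟩ := reach_zero hκ L θ ω v κ t₀ (by omega)
    have hz' : ∀ t, t₁ ≤ t → (ghmL L κ θ)^[t] ω v = 0 := by
      intro t ht
      induction t, ht using Nat.le_induction with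
      | base => exact hz
      | succ t ht ih =>
        rcases step_of_zero L θ ω v t ih with h1 | h1
        · exact absurd h1 (ht₀ (t + 1) (by omega))
        · exact h1
    rw [Filter.frequently_atTop] at h
    obtain ⟨t, ht, hne⟩ := h t₁
    exact hne (by rw [hz' t ht, hz' (t + 1) (by omega)])
  · intro h
    refine h.mono ?_
    intro t ht hcon
    rw [step_of_ne L θ ω v t (by rw [ht]; exact one_ne_zero'' hκ)] at hcon
    exact succ_ne hκ _ hcon

/-- Without defects, fluctuation spreads.  PROOF: `fluct_iff_exc`; a vanishing defect at time `t`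
means: if `v` is excited at time `t + 1` then `nb v a` is excited at time `t` or `t + 2`. -/
lemma spread_of_def [NeZero κ] (hκ : 3 ≤ κ) (L : Lab V n) (θ : ℕ) (ω : V → Fin κ) (v : V)
    (a : Fin n) (h : ∀ᶠ t in Filter.atTop, defG L κ θ v a t ω = 0)
    (hv : Fluct (ghmL L κ θ) ω v) : Fluct (ghmL L κ θ) ω (L.nb v a) := by
  rw [fluct_iff_exc hκ] at hv ⊢
  rw [Filter.frequently_atTop] at hv ⊢
  rw [Filter.eventually_atTop] at h
  obtain ⟨t₀, ht₀⟩ := h
  intro N
  obtain ⟨t, ht, hex⟩ := hv (max t₀ N + 1)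
  obtain ⟨s, rfl⟩ : ∃ s, t = s + 1 := ⟨t - 1, by omega⟩
  have hs : max t₀ N ≤ s := by omega
  have h1 := ht₀ s ((le_max_left _ _).trans hs)
  have hN : N ≤ s := (le_max_right _ _).trans hs
  unfold defG at h1
  have h2 : exc L κ θ (s + 1) v ω = 1 := by
    unfold exc
    rw [if_pos hex]
  rw [h2] at h1
  by_cases h3 : (ghmL L κ θ)^[s] ω (L.nb v a) = 1
  · exact ⟨s, hN, h3⟩
  · by_cases h4 : (ghmL L κ θ)^[s + 2] ω (L.nb v a) = 1
    · exact ⟨s + 2, by omega, h4⟩
    · exfalso
      unfold exc at h1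
      rw [if_neg h3, if_neg h4] at h1
      norm_num at h1

end Pool.Agent.Helper94.CCA
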