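import Pool.Agent.Helper94.CCA.GhmSum
import Pool.Agent.Helper94.CCA.GhmFluct
import Pool.Agent.Helper94.CCA.BC

/-!
# GHM: conclusions
-/

open MeasureTheory Set

namespace Pool.Agent.Helper94.CCA

variable {V : Type*} {n κ : ℕ}

private lemma exc_nonneg (L : Lab V n) (κ θ : ℕ) [NeZero κ] (t : ℕ) (v : V) (ω : V → Fin κ) :
    0 ≤ exc L κ θ t v ω := by
  unfold exc
  split_ifs <;> norm_num

private lemma defG_nonneg [NeZero κ] (hκ : 3 ≤ κ) (L : Lab V n) (θ : ℕ) (v : V) (a : Fin n)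
    (t : ℕ) (ω : V → Fin κ) : 0 ≤ defG L κ θ v a t ω := by
  rcases defG_cases hκ L θ v a t ω with h | h
  · exact h.ge
  · linarith

/-- Spreading of fluctuation for `2 θ ≥ n`.  PROOF: `defG ≥ 0` (`defG_cases`) and the second term of
`count_sum` is nonnegative, so the partial sums of `∫ defG L κ θ v a t` are at most `n`;
`eventually_zero_of_sum_le` and `spread_of_def`. -/
theorem ghm_spreads [NeZero κ] [Countable V] (hκ : 3 ≤ κ) (L : Lab V n) (θ : ℕ)
    (hθ : n ≤ 2 * θ) : Spreads L (ghmL L κ θ) := by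
  unfold Spreads
  rw [ae_all_iff]
  intro v
  rw [ae_all_iff]
  intro a
  have hθ' : (0 : ℝ) ≤ 2 * (θ : ℝ) - n := by
    have : (n : ℝ) ≤ 2 * (θ : ℝ) := by exact_mod_cast hθ
    linarith
  have key := eventually_zero_of_sum_le (law V κ) (fun t => defG L κ θ v a t)
    (fun t => integrable_defG L κ θ v a t) (fun t ω => defG_cases hκ L θ v a t ω) n (by
      intro T
      refine le_trans (Finset.sum_le_sum ?_) (count_sum hκ L θ v T)
      intro t _
      have h1 : ∫ ω, defG L κ θ v a t ω ∂(law V κ) ≤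
          ∑ a, ∫ ω, defG L κ θ v a t ω ∂(law V κ) :=
        Finset.single_le_sum (f := fun a => ∫ ω, defG L κ θ v a t ω ∂(law V κ))
          (fun b _ => integral_nonneg fun ω => defG_nonneg hκ L θ v b t ω)
          (Finset.mem_univ a)
      have h2 : 0 ≤ (2 * (θ : ℝ) - n) * ∫ ω, exc L κ θ (t + 1) v ω ∂(law V κ) :=
        mul_nonneg hθ' (integral_nonneg fun ω => exc_nonneg L κ θ (t + 1) v ω)
      linarith)
  filter_upwards [key] with ω hω hv
  exact spread_of_def hκ L θ ω v a hω hv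

/-- Fixation for `2 θ > n`.  PROOF: the partial sums of `∫ exc (t+1) v` are bounded, so
`eventually_zero_of_sum_le` shows that `v` is excited finitely often; `fluct_iff_exc`. -/
theorem ghm_fixates [NeZero κ] (hκ : 3 ≤ κ) (L : Lab V n) (θ : ℕ)
    (hθ : n < 2 * θ) (v : V) : ∀ᵐ ω ∂(law V κ), ¬ Fluct (ghmL L κ θ) ω v := by
  have hθ' : (1 : ℝ) ≤ 2 * (θ : ℝ) - n := by
    have : (n : ℝ) + 1 ≤ 2 * (θ : ℝ) := by exact_mod_cast hθ
    linarith
  have key := eventually_zero_of_sum_le (law V κ) (fun t => exc L κ θ (t + 1) v)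
    (fun t => integrable_exc L κ θ v (t + 1)) (by
      intro t ω
      unfold exc
      split_ifs
      · right; exact le_rfl
      · left; rfl) n (by
      intro T
      refine le_trans (Finset.sum_le_sum ?_) (count_sum hκ L θ v T)
      intro t _
      have h1 : 0 ≤ ∑ a, ∫ ω, defG L κ θ v a t ω ∂(law V κ) :=
        Finset.sum_nonneg fun b _ => integral_nonneg fun ω => defG_nonneg hκ L θ v b t ω
      have h2 : 0 ≤ ∫ ω, exc L κ θ (t + 1) v ω ∂(law V κ) :=
        integral_nonneg fun ω => exc_nonneg L κ θ (t + 1) v ω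
      nlinarith)
  filter_upwards [key] with ω hω hv
  rw [fluct_iff_exc hκ, Filter.frequently_atTop] at hv
  rw [Filter.eventually_atTop] at hω
  obtain ⟨t₀, ht₀⟩ := hω
  obtain ⟨t, ht, hex⟩ := hv (t₀ + 1)
  obtain ⟨s, rfl⟩ : ∃ s, t = s + 1 := ⟨t - 1, by omega⟩
  have h1 := ht₀ s (by omega)
  unfold exc at h1
  rw [if_pos hex] at h1
  norm_num at h1

end Pool.Agent.Helper94.CCA
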