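import Pool.Agent.Helper94.CCA.GhmDefs

/-!
# GHM: pointwise facts on excitations
-/

open MeasureTheory Set

namespace Pool.Agent.Helper94.CCA

variable {V : Type*} {n κ : ℕ}

private lemma one_ne_zero_fin [NeZero κ] (hκ : 3 ≤ κ) : (1 : Fin κ) ≠ 0 := by
  obtain ⟨k, rfl⟩ : ∃ k, κ = k + 3 := ⟨κ - 3, by omega⟩
  intro h
  have h1 := congrArg Fin.val h
  simp at h1

private lemma two_ne_zero_fin [NeZero κ] (hκ : 3 ≤ κ) : (1 : Fin κ) + 1 ≠ 0 := by
  obtain ⟨k, rfl⟩ : ∃ k, κ = k + 3 := ⟨κ - 3, by omega⟩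
  intro h
  have h1 := congrArg Fin.val h
  rw [Fin.val_add, Fin.val_one, Nat.mod_eq_of_lt (by omega)] at h1
  simp at h1

/-- An excited vertex was at rest and had at least `θ` excited neighbours.  PROOF: if `γ v ≠ 0` the
new state is `γ v + 1`, and it is `1` only if `γ v = 0`; if it is `0 ≠ 1` the condition fails. -/
lemma exc_succ [NeZero κ] (hκ : 3 ≤ κ) (L : Lab V n) (θ : ℕ) (γ : V → Fin κ) (v : V)
    (h : ghmL L κ θ γ v = 1) :
    γ v = 0 ∧ θ ≤ (Finset.univ.filter fun a => γ (L.nb v a) = 1).card := by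
  unfold ghmL at h
  split_ifs at h with h1
  · have h2 : γ v = 0 := by
      have h3 : γ v + 1 = 0 + 1 := by rw [h, zero_add]
      exact add_right_cancel h3
    refine ⟨h2, ?_⟩
    rcases h1 with h3 | h3
    · exact absurd h2 h3
    · exact h3
  · exact absurd h.symm (one_ne_zero_fin hκ)

/-- No vertex is excited at two times whose difference is two.  PROOF: the states are `1`, `2`,
and then `3 ≠ 1` (as `2 ≠ 0` for `κ ≥ 3`). -/
lemma exc_two [NeZero κ] (hκ : 3 ≤ κ) (L : Lab V n) (θ : ℕ) (γ : V → Fin κ) (v : V)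
    (h : γ v = 1) : ghmL L κ θ (ghmL L κ θ γ) v ≠ 1 := by
  intro h1
  have h2 := (exc_succ hκ L θ (ghmL L κ θ γ) v h1).1
  have h3 : ghmL L κ θ γ v = 1 + 1 := by
    unfold ghmL
    rw [if_pos (Or.inl (by rw [h]; exact one_ne_zero_fin hκ)), h]
  rw [h3] at h2
  exact two_ne_zero_fin hκ h2

/-- PROOF: if `v` is not excited at time `t + 1` the defect is `0`; otherwise it is `1 - e - e'`
where `e`, `e'` are the indicators that the neighbour is excited at times `t` and `t + 2`, which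
are not both `1` by `exc_two`. -/
lemma defG_cases [NeZero κ] (hκ : 3 ≤ κ) (L : Lab V n) (θ : ℕ) (v : V) (a : Fin n) (t : ℕ)
    (ω : V → Fin κ) : defG L κ θ v a t ω = 0 ∨ 1 ≤ defG L κ θ v a t ω := by
  have h2 : (ghmL L κ θ)^[t] ω (L.nb v a) = 1 → (ghmL L κ θ)^[t + 2] ω (L.nb v a) ≠ 1 := by
    intro h
    rw [Function.iterate_succ_apply', Function.iterate_succ_apply']
    exact exc_two hκ L θ _ _ h
  unfold defG exc
  by_cases h0 : (ghmL L κ θ)^[t + 1] ω v = 1
  · by_cases h1 : (ghmL L κ θ)^[t] ω (L.nb v a) = 1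
    · have h3 := h2 h1
      left
      rw [if_pos h0, if_pos h1, if_neg h3]
      norm_num
    · by_cases h3 : (ghmL L κ θ)^[t + 2] ω (L.nb v a) = 1
      · left
        rw [if_pos h0, if_neg h1, if_pos h3]
        norm_num
      · right
        rw [if_pos h0, if_neg h1, if_neg h3]
        norm_num
  · left
    rw [if_neg h0]
    norm_num

lemma sum_exc [NeZero κ] (hκ : 3 ≤ κ) (L : Lab V n) (θ : ℕ) (v : V) (t : ℕ) (ω : V → Fin κ) :
    θ * exc L κ θ (t + 1) v ω ≤ ∑ a, exc L κ θ (t + 1) v ω * exc L κ θ t (L.nb v a) ω := by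
  unfold exc
  by_cases h0 : (ghmL L κ θ)^[t + 1] ω v = 1
  · rw [if_pos h0, mul_one]
    have h1 : ghmL L κ θ ((ghmL L κ θ)^[t] ω) v = 1 := by
      rw [Function.iterate_succ_apply'] at h0
      exact h0
    have h2 := (exc_succ hκ L θ _ v h1).2
    have h3 : ∑ a, (1 : ℝ) * (if (ghmL L κ θ)^[t] ω (L.nb v a) = 1 then (1 : ℝ) else 0) =
        ((Finset.univ.filter fun a => (ghmL L κ θ)^[t] ω (L.nb v a) = 1).card : ℝ) := by
      simp only [one_mul]
      rw [Finset.sum_boole]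
    rw [h3]
    exact_mod_cast h2
  · rw [if_neg h0, mul_zero]
    apply Finset.sum_nonneg
    intro a _
    rw [zero_mul]

end Pool.Agent.Helper94.CCA
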