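import Pool.Agent.Helper94.CCA.GhmPt
import Pool.Agent.Helper94.CCA.Integ

/-!
# GHM: the counting argument
-/

open MeasureTheory Set

namespace Pool.Agent.Helper94.CCA

variable {V : Type*} {n κ : ℕ}

lemma integrable_defG (L : Lab V n) (κ θ : ℕ) [NeZero κ] (v : V) (a : Fin n) (t : ℕ) :
    Integrable (defG L κ θ v a t) (law V κ) :=
  integrable_of_fin (measurable_ghmL L κ θ) t v (L.nb v a)
    (fun _ x2 x3 _ _ x6 => (if x3 = 1 then 1 else 0) -
      (if x3 = 1 then 1 else 0) * (if x2 = 1 then 1 else 0) -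
      (if x3 = 1 then 1 else 0) * (if x6 = 1 then 1 else 0))

lemma integrable_exc (L : Lab V n) (κ θ : ℕ) [NeZero κ] (v : V) (t : ℕ) :
    Integrable (exc L κ θ t v) (law V κ) :=
  integrable_of_fin (measurable_ghmL L κ θ) t v v
    (fun x1 _ _ _ _ _ => if x1 = 1 then 1 else 0)

private lemma integrable_P (L : Lab V n) (κ θ : ℕ) [NeZero κ] (v u : V) (t : ℕ) :
    Integrable (fun ω => exc L κ θ (t + 1) v ω * exc L κ θ t u ω) (law V κ) :=
  integrable_of_fin (measurable_ghmL L κ θ) t v u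
    (fun _ x2 x3 _ _ _ => (if x3 = 1 then 1 else 0) * (if x2 = 1 then 1 else 0))

private lemma integrable_Q (L : Lab V n) (κ θ : ℕ) [NeZero κ] (v u : V) (t : ℕ) :
    Integrable (fun ω => exc L κ θ (t + 1) v ω * exc L κ θ (t + 2) u ω) (law V κ) :=
  integrable_of_fin (measurable_ghmL L κ θ) t v u
    (fun _ _ x3 _ _ x6 => (if x3 = 1 then 1 else 0) * (if x6 = 1 then 1 else 0))

private lemma exchange [NeZero κ] (L : Lab V n) (θ : ℕ) (v : V) (a : Fin n) (t : ℕ) :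
    ∫ ω, exc L κ θ (t + 1) v ω * exc L κ θ (t + 2) (L.nb v a) ω ∂(law V κ) =
      ∫ ω, exc L κ θ (t + 2) v ω * exc L κ θ (t + 1) (L.nb v a) ω ∂(law V κ) := by
  have h := integral_edge (equi_ghmL L κ θ)
    (fun α β _ w => (if α w = 1 then (1 : ℝ) else 0) * (if β (L.nb w a) = 1 then 1 else 0))
    (by
      intro σ hσ α β γ w
      simp only [Function.comp_apply, hσ w a]) (t + 1) v (L.nb v a)
  simp only [L.nb_nb] at h
  unfold exc
  rw [h]
  refine integral_congr_ae (Filter.Eventually.of_forall fun ω => ?_)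
  exact mul_comm _ _

/-- One step of the counting argument.
PROOF: write `E = ∫ exc (t+1) v`, `S t = ∑ a, ∫ exc (t+1) v * exc t (nb v a)`.  By `integral_edge`
at time `t + 1` (exchange `v` and `nb v a`, `L.nb_nb`) `∫ exc (t+1) v * exc (t+2) (nb v a) =
∫ exc (t+1) (nb v a) * exc (t+2) v`.  So `∑ a, ∫ defG = n E - S t - S (t+1)`, and
`θ E ≤ S t` (`sum_exc`), so the left side is `2 θ E - S t - S (t+1) ≤ S t - S (t+1)`. -/
lemma count_step [NeZero κ] (hκ : 3 ≤ κ) (L : Lab V n) (θ : ℕ) (v : V) (t : ℕ) :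
    (∑ a, ∫ ω, defG L κ θ v a t ω ∂(law V κ)) +
      (2 * (θ : ℝ) - n) * ∫ ω, exc L κ θ (t + 1) v ω ∂(law V κ) ≤
    (∑ a, ∫ ω, exc L κ θ (t + 1) v ω * exc L κ θ t (L.nb v a) ω ∂(law V κ)) -
      ∑ a, ∫ ω, exc L κ θ (t + 2) v ω * exc L κ θ (t + 1) (L.nb v a) ω ∂(law V κ) := by
  have hdef : ∀ a, ∫ ω, defG L κ θ v a t ω ∂(law V κ) =
      ∫ ω, exc L κ θ (t + 1) v ω ∂(law V κ) -
      ∫ ω, exc L κ θ (t + 1) v ω * exc L κ θ t (L.nb v a) ω ∂(law V κ) -
      ∫ ω, exc L κ θ (t + 2) v ω * exc L κ θ (t + 1) (L.nb v a) ω ∂(law V κ) := by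
    intro a
    rw [← exchange L θ v a t]
    have h1 : Integrable (fun ω => exc L κ θ (t + 1) v ω -
        exc L κ θ (t + 1) v ω * exc L κ θ t (L.nb v a) ω) (law V κ) :=
      (integrable_exc L κ θ v (t + 1)).sub (integrable_P L κ θ v (L.nb v a) t)
    have h2 := integrable_Q L κ θ v (L.nb v a) t
    calc ∫ ω, defG L κ θ v a t ω ∂(law V κ)
        = ∫ ω, ((exc L κ θ (t + 1) v ω -
          exc L κ θ (t + 1) v ω * exc L κ θ t (L.nb v a) ω) -
          exc L κ θ (t + 1) v ω * exc L κ θ (t + 2) (L.nb v a) ω) ∂(law V κ) := rfl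
      _ = _ := by
        rw [integral_sub h1 h2,
          integral_sub (integrable_exc L κ θ v (t + 1)) (integrable_P L κ θ v (L.nb v a) t)]
  have hθ : (θ : ℝ) * ∫ ω, exc L κ θ (t + 1) v ω ∂(law V κ) ≤
      ∑ a, ∫ ω, exc L κ θ (t + 1) v ω * exc L κ θ t (L.nb v a) ω ∂(law V κ) := by
    rw [← integral_const_mul, ← integral_finsetSum _ (fun a _ => integrable_P L κ θ v (L.nb v a) t)]
    refine integral_mono ((integrable_exc L κ θ v (t + 1)).const_mul _)
      (integrable_finsetSum _ fun a _ => integrable_P L κ θ v (L.nb v a) t) ?_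
    intro ω
    exact sum_exc hκ L θ v t ω
  simp only [hdef]
  rw [Finset.sum_sub_distrib, Finset.sum_sub_distrib, Finset.sum_const, Finset.card_univ,
    Fintype.card_fin, nsmul_eq_mul]
  linarith

/-- PROOF: telescoping, `0 ≤ S t ≤ n`. -/
theorem count_sum [NeZero κ] (hκ : 3 ≤ κ) (L : Lab V n) (θ : ℕ) (v : V) (T : ℕ) :
    ∑ t ∈ Finset.range T, ((∑ a, ∫ ω, defG L κ θ v a t ω ∂(law V κ)) +
      (2 * (θ : ℝ) - n) * ∫ ω, exc L κ θ (t + 1) v ω ∂(law V κ)) ≤ n := by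
  set S : ℕ → ℝ := fun t =>
    ∑ a, ∫ ω, exc L κ θ (t + 1) v ω * exc L κ θ t (L.nb v a) ω ∂(law V κ) with hS
  have hexc : ∀ (s : ℕ) (u : V) (ω : V → Fin κ), 0 ≤ exc L κ θ s u ω ∧ exc L κ θ s u ω ≤ 1 := by
    intro s u ω
    unfold exc
    split_ifs <;> norm_num
  have h1 : ∑ t ∈ Finset.range T, ((∑ a, ∫ ω, defG L κ θ v a t ω ∂(law V κ)) +
      (2 * (θ : ℝ) - n) * ∫ ω, exc L κ θ (t + 1) v ω ∂(law V κ)) ≤
      ∑ t ∈ Finset.range T, (S t - S (t + 1)) :=
    Finset.sum_le_sum fun t _ => count_step hκ L θ v t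
  rw [Finset.sum_range_sub'] at h1
  have hST : 0 ≤ S T := by
    refine Finset.sum_nonneg fun a _ => integral_nonneg fun ω => ?_
    exact mul_nonneg (hexc _ _ _).1 (hexc _ _ _).1
  have hS0 : S 0 ≤ n := by
    have h2 : ∀ a : Fin n, ∫ ω, exc L κ θ (0 + 1) v ω * exc L κ θ 0 (L.nb v a) ω ∂(law V κ) ≤
        1 := by
      intro a
      have h3 : ∫ ω, exc L κ θ (0 + 1) v ω * exc L κ θ 0 (L.nb v a) ω ∂(law V κ) ≤
          ∫ _, (1 : ℝ) ∂(law V κ) := by
        refine integral_mono (integrable_P L κ θ v (L.nb v a) 0) (integrable_const _) ?_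
        intro ω
        exact mul_le_one₀ (hexc _ _ _).2 (hexc _ _ _).1 (hexc _ _ _).2
      simpa using h3
    calc S 0 ≤ ∑ _a : Fin n, (1 : ℝ) := Finset.sum_le_sum fun a _ => h2 a
      _ = n := by simp
  linarith

end Pool.Agent.Helper94.CCA
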