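import Pool.Agent.Helper94.CCA.Defs

/-!
# Invariance, measurability, equivariance
-/

open MeasureTheory Set

namespace Pool.Agent.Helper94.CCA

variable {V : Type*} {n κ : ℕ}

/-- The initial law is invariant under relabelling the vertices. -/
theorem law_inv [NeZero κ] (σ : V ≃ V) :
    MeasurePreserving (fun ω : V → Fin κ => ω ∘ σ) (law V κ) (law V κ) := by
  have hm : Measurable (fun ω : V → Fin κ => ω ∘ σ) :=
    measurable_pi_iff.2 fun v => measurable_pi_apply (σ v)
  refine ⟨hm, ?_⟩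
  unfold law
  have := Measure.infinitePi_map_piCongrLeft
    (μ := fun _ : V => (PMF.uniformOfFintype (Fin κ)).toMeasure) σ.symm
  rw [← this]
  congr 1
  funext ω
  funext v
  simp [MeasurableEquiv.piCongrLeft, Equiv.piCongrLeft]

theorem measurable_ccaL (L : Lab V n) (κ θ : ℕ) [NeZero κ] : Measurable (ccaL L κ θ) := by
  rw [measurable_pi_iff]
  intro v
  have h : (fun ω : V → Fin κ => ccaL L κ θ ω v) =
      (fun p : Fin κ × (Fin n → Fin κ) =>
        if θ ≤ (Finset.univ.filter fun a => p.2 a = p.1 + 1).card then p.1 + 1 else p.1) ∘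
      (fun ω : V → Fin κ => (ω v, fun a => ω (L.nb v a))) := rfl
  rw [h]
  exact (measurable_of_countable _).comp ((measurable_pi_apply v).prodMk
    (measurable_pi_iff.2 fun a => measurable_pi_apply _))

theorem measurable_ghmL (L : Lab V n) (κ θ : ℕ) [NeZero κ] : Measurable (ghmL L κ θ) := by
  rw [measurable_pi_iff]
  intro v
  have h : (fun ω : V → Fin κ => ghmL L κ θ ω v) =
      (fun p : Fin κ × (Fin n → Fin κ) =>
        if p.1 ≠ 0 ∨ θ ≤ (Finset.univ.filter fun a => p.2 a = 1).card then p.1 + 1 else 0) ∘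
      (fun ω : V → Fin κ => (ω v, fun a => ω (L.nb v a))) := rfl
  rw [h]
  exact (measurable_of_countable _).comp ((measurable_pi_apply v).prodMk
    (measurable_pi_iff.2 fun a => measurable_pi_apply _))

theorem equi_ccaL (L : Lab V n) (κ θ : ℕ) [NeZero κ] : Equi L (ccaL L κ θ) := by
  intro σ hσ ω
  funext v
  simp only [ccaL, Function.comp_apply, hσ v]

theorem equi_ghmL (L : Lab V n) (κ θ : ℕ) [NeZero κ] : Equi L (ghmL L κ θ) := by
  intro σ hσ ω
  funext v
  simp only [ghmL, Function.comp_apply, hσ v]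

theorem Equi.iterate {L : Lab V n} {F : (V → Fin κ) → V → Fin κ} (hF : Equi L F) (t : ℕ) :
    Equi L (F^[t]) := by
  intro σ hσ
  induction t with
  | zero => intro ω; rfl
  | succ t ih =>
    intro ω
    rw [Function.iterate_succ_apply', Function.iterate_succ_apply', ih ω, hF σ hσ]

theorem fluct_comp {L : Lab V n} {F : (V → Fin κ) → V → Fin κ} (hF : Equi L F) {σ : V ≃ V}
    (hσ : IsAut L σ) (ω : V → Fin κ) (v : V) : Fluct F (ω ∘ σ) v ↔ Fluct F ω (σ v) := by
  unfold Fluct
  have h : ∀ t, F^[t] (ω ∘ σ) v = F^[t] ω (σ v) := fun t => by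
    rw [(hF.iterate t) σ hσ ω]; rfl
  simp only [h]

theorem measurableSet_fluct {F : (V → Fin κ) → V → Fin κ} (hF : Measurable F) (v : V) :
    MeasurableSet {ω : V → Fin κ | Fluct F ω v} := by
  have h : {ω : V → Fin κ | Fluct F ω v} =
      ⋂ N : ℕ, ⋃ t : ℕ, {ω | N ≤ t ∧ F^[t + 1] ω v ≠ F^[t] ω v} := by
    ext ω
    simp only [Fluct, mem_iInter, mem_iUnion, mem_ofPred_eq]
    rw [Nat.frequently_atTop_iff_infinite.symm, Filter.frequently_atTop]
  rw [h]
  refine MeasurableSet.iInter fun N => MeasurableSet.iUnion fun t => ?_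
  have hm : ∀ t, Measurable (fun ω : V → Fin κ => F^[t] ω v) := fun t =>
    (measurable_pi_apply v).comp (hF.iterate t)
  have h2 : MeasurableSet {ω : V → Fin κ | F^[t + 1] ω v ≠ F^[t] ω v} :=
    (measurableSet_eq_fun (hm (t + 1)) (hm t)).compl
  by_cases hN : N ≤ t
  · simpa [hN] using h2
  · simp [hN]

/-- The law of an equivariant observable attached to the vertex `v` does not depend on `v`. -/
theorem integral_edge {L : Lab V n} [NeZero κ] {F : (V → Fin κ) → V → Fin κ}
    (hF : Equi L F) (φ : (V → Fin κ) → (V → Fin κ) → (V → Fin κ) → V → ℝ)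
    (hφ : ∀ σ : V ≃ V, IsAut L σ → ∀ α β γ : V → Fin κ, ∀ v,
      φ (α ∘ σ) (β ∘ σ) (γ ∘ σ) v = φ α β γ (σ v)) (t : ℕ) (v w : V) :
    ∫ ω, φ (F^[t] ω) (F^[t + 1] ω) (F^[t + 2] ω) v ∂(law V κ) =
      ∫ ω, φ (F^[t] ω) (F^[t + 1] ω) (F^[t + 2] ω) w ∂(law V κ) := by
  obtain ⟨σ, hσ, hvw⟩ := L.trans v w
  have hemb : MeasurableEmbedding (fun ω : V → Fin κ => ω ∘ σ) := by
    have h1 : Measurable (fun ω : V → Fin κ => ω ∘ σ) :=
      measurable_pi_iff.2 fun v => measurable_pi_apply (σ v)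
    have h2 : Measurable (fun ω : V → Fin κ => ω ∘ σ.symm) :=
      measurable_pi_iff.2 fun v => measurable_pi_apply (σ.symm v)
    let e : (V → Fin κ) ≃ᵐ (V → Fin κ) :=
      { toFun := fun ω => ω ∘ σ
        invFun := fun ω => ω ∘ σ.symm
        left_inv := fun ω => by funext v; simp
        right_inv := fun ω => by funext v; simp
        measurable_toFun := h1
        measurable_invFun := h2 }
    exact e.measurableEmbedding
  have h := (law_inv (κ := κ) σ).integral_comp hemb
    (fun ω => φ (F^[t] ω) (F^[t + 1] ω) (F^[t + 2] ω) v)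
  rw [← h]
  congr 1
  funext ω
  rw [(hF.iterate t) σ hσ ω, (hF.iterate (t + 1)) σ hσ ω, (hF.iterate (t + 2)) σ hσ ω,
    hφ σ hσ, hvw]

end Pool.Agent.Helper94.CCA
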