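import Pool.Agent.Helper94.CCA.Cyl
import Pool.Agent.Helper94.CCA.Approx

/-!
# Mixing: invariant events are trivial
-/

open MeasureTheory Set

namespace Pool.Agent.Helper94.CCA

variable {V : Type*} {n κ : ℕ}

private theorem real_le_add [NeZero κ] (X Y : Set (V → Fin κ)) :
    (law V κ).real X ≤ (law V κ).real Y + (law V κ).real (symmDiff X Y) := by
  refine (measureReal_mono ?_).trans (measureReal_union_le _ _)
  intro ω hω
  by_cases h : ω ∈ Y
  · exact Or.inl h
  · exact Or.inr (Or.inl ⟨hω, h⟩)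

private theorem abs_real_sub_le [NeZero κ] (X Y : Set (V → Fin κ)) :
    |(law V κ).real X - (law V κ).real Y| ≤ (law V κ).real (symmDiff X Y) := by
  rw [abs_sub_le_iff]
  have h1 := real_le_add X Y
  have h2 := real_le_add Y X
  rw [symmDiff_comm] at h2
  constructor <;> linarith

/-- An event which is almost surely invariant under the label-preserving bijections has
probability `0` or `1`.
PROOF: let `p = law A`.  For `ε > 0` take `K, B` from `exists_cylinder_approx` and `σ` from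
`L.wander K`; write `σ⁻¹ X` for the preimage of `X` under `ω ↦ ω ∘ σ`.  Then
`law (B ∩ σ⁻¹ B) = law B ^ 2` (`law_cylinder_inter`), `law (A ∩ σ⁻¹ A) = p` by `hinv`, and
`|law (A ∩ σ⁻¹ A) - law (B ∩ σ⁻¹ B)| ≤ law (A Δ B) + law (σ⁻¹ (A Δ B)) < 2 ε` (`law_inv`),
`|law B ^ 2 - p ^ 2| ≤ 2 ε`.  So `|p - p ^ 2| ≤ 4 ε` for every `ε`, `p = p ^ 2`. -/
theorem zero_one_of_inv [NeZero κ] (L : Lab V n) (A : Set (V → Fin κ)) (hA : MeasurableSet A)
    (hinv : ∀ σ : V ≃ V, IsAut L σ → (fun ω : V → Fin κ => ω ∘ σ) ⁻¹' A =ᵐ[law V κ] A) :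
    law V κ A = 0 ∨ law V κ A = 1 := by
  set p := (law V κ).real A with hp
  have hp0 : 0 ≤ p := measureReal_nonneg
  have hp1 : p ≤ 1 := measureReal_le_one
  have key : ∀ ε : ℝ, 0 < ε → |p - p ^ 2| ≤ 4 * ε := by
    intro ε hε
    obtain ⟨K, B, hB, hBK, hAB⟩ := exists_cylinder_approx A hA hε
    obtain ⟨σ, hσ, hσK⟩ := L.wander K
    set q := (law V κ).real B with hq
    have hq0 : 0 ≤ q := measureReal_nonneg
    have hq1 : q ≤ 1 := measureReal_le_one
    have hAB' : (law V κ).real (symmDiff A B) < ε := hAB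
    have e1 : (law V κ).real (B ∩ (fun ω : V → Fin κ => ω ∘ σ) ⁻¹' B) = q * q := by
      rw [Measure.real, law_cylinder_inter σ K hσK B hB hBK, ENNReal.toReal_mul]
      rfl
    have e2 : (law V κ).real (A ∩ (fun ω : V → Fin κ => ω ∘ σ) ⁻¹' A) = p := by
      rw [Measure.real]
      have : (A ∩ (fun ω : V → Fin κ => ω ∘ σ) ⁻¹' A : Set (V → Fin κ)) =ᵐ[law V κ]
          (A ∩ A : Set (V → Fin κ)) := (ae_eq_refl _).inter (hinv σ hσ)
      rw [measure_congr this, inter_self]
      rfl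
    have e3 : (law V κ).real ((fun ω : V → Fin κ => ω ∘ σ) ⁻¹' (symmDiff A B)) =
        (law V κ).real (symmDiff A B) := by
      rw [Measure.real, (law_inv σ).measure_preimage (hA.symmDiff hB).nullMeasurableSet]
      rfl
    have e4 := abs_real_sub_le (A ∩ (fun ω : V → Fin κ => ω ∘ σ) ⁻¹' A)
      (B ∩ (fun ω : V → Fin κ => ω ∘ σ) ⁻¹' B)
    have e5 : (law V κ).real (symmDiff (A ∩ (fun ω : V → Fin κ => ω ∘ σ) ⁻¹' A)
        (B ∩ (fun ω : V → Fin κ => ω ∘ σ) ⁻¹' B)) ≤
        (law V κ).real (symmDiff A B) +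
          (law V κ).real ((fun ω : V → Fin κ => ω ∘ σ) ⁻¹' (symmDiff A B)) := by
      refine (measureReal_mono ?_).trans (measureReal_union_le _ _)
      intro ω hω
      rcases hω with ⟨⟨h1, h2⟩, h3⟩ | ⟨⟨h1, h2⟩, h3⟩
      · by_cases h : ω ∈ B
        · right
          refine Or.inl ⟨h2, fun h4 => h3 ⟨h, h4⟩⟩
        · exact Or.inl (Or.inl ⟨h1, h⟩)
      · by_cases h : ω ∈ A
        · right
          refine Or.inr ⟨h2, fun h4 => h3 ⟨h, h4⟩⟩
        · exact Or.inl (Or.inr ⟨h1, h⟩)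
    rw [e1, e2] at e4
    rw [e3] at e5
    have e6 := abs_real_sub_le A B
    rw [← hp, ← hq] at e6
    have e7 : |p - q| ≤ ε := e6.trans hAB'.le
    have e8 : |p - q * q| ≤ 2 * ε := by linarith
    rw [abs_le] at e7 e8 ⊢
    constructor
    · nlinarith
    · nlinarith
  have h0 : p - p ^ 2 = 0 := by
    by_contra hne
    have h1 : 0 < |p - p ^ 2| := abs_pos.2 hne
    have h2 := key (|p - p ^ 2| / 8) (by positivity)
    linarith
  have h1 : p * (1 - p) = 0 := by linear_combination h0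
  have hfin : law V κ A ≠ ⊤ := measure_ne_top _ _
  rcases mul_eq_zero.1 h1 with h | h
  · left
    rw [hp, Measure.real, ENNReal.toReal_eq_zero_iff] at h
    exact h.resolve_right hfin
  · right
    have h2 : (law V κ A).toReal = 1 := by
      have : p = 1 := by linarith
      exact this
    rw [← ENNReal.ofReal_toReal hfin, h2, ENNReal.ofReal_one]

end Pool.Agent.Helper94.CCA
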