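import Pool.Agent.Helper94.CCA.Defs

/-!
# The words model: first facts
-/

open Set

namespace Pool.Agent.Helper94.CCA

variable {d : ℕ}

/-- If the head of `v` is not `a`, the letter `a` is put in front. -/
lemma wnb_cons (v : Vert d) (a : Fin (d + 1)) (h : v.1.head? ≠ some a) :
    (wnb v a).1 = a :: v.1 := by
  unfold wnb
  rw [dif_neg h]

private lemma wnb_head (v : Vert d) (a : Fin (d + 1)) (h : v.1.head? = some a) :
    (wnb v a).1 = v.1.tail := by
  unfold wnb
  rw [dif_pos h]

private lemma eq_cons_of_head {l : List (Fin (d + 1))} {a : Fin (d + 1)} (h : l.head? = some a) :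
    l = a :: l.tail := by
  cases l with
  | nil => simp at h
  | cons b m =>
    simp only [List.head?_cons, Option.some.injEq] at h
    subst h
    rfl

/-- A nonempty word is obtained from its tail. -/
lemma wnb_tail (a : Fin (d + 1)) (l : List (Fin (d + 1))) (h : (a :: l).IsChain (· ≠ ·)) :
    wnb (⟨l, h.tail⟩ : Vert d) a = ⟨a :: l, h⟩ := by
  have h1 : l.head? ≠ some a := by
    intro h2
    rw [List.isChain_cons] at h
    exact h.1 a h2 rfl
  apply Subtype.ext
  exact wnb_cons (⟨l, h.tail⟩ : Vert d) a h1

/-- PROOF: if the head of `v` is `a` then `v = a :: w`, `wnb v a = w` and the head of `w` is not `a`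
(chain condition), so `wnb w a = a :: w = v`.  Otherwise `wnb v a = a :: v` whose head is `a`, so
the letter is cancelled. -/
lemma wnb_wnb (v : Vert d) (a : Fin (d + 1)) : wnb (wnb v a) a = v := by
  by_cases h : v.1.head? = some a
  · have h1 := eq_cons_of_head h
    have h2 : (a :: v.1.tail).IsChain (· ≠ ·) := h1 ▸ v.2
    have h3 : wnb v a = ⟨v.1.tail, h2.tail⟩ := Subtype.ext (wnb_head v a h)
    rw [h3, wnb_tail a v.1.tail h2]
    exact Subtype.ext h1.symm
  · have h1 := wnb_cons v a h
    apply Subtype.ext
    rw [wnb_head (wnb v a) a (by rw [h1]; rfl), h1]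
    rfl

/-- The length changes by one. -/
lemma length_wnb (v : Vert d) (a : Fin (d + 1)) :
    (wnb v a).1.length = v.1.length + 1 ∨ (wnb v a).1.length + 1 = v.1.length := by
  by_cases h : v.1.head? = some a
  · right
    rw [wnb_head v a h]
    conv_rhs => rw [eq_cons_of_head h]
    simp
  · left
    rw [wnb_cons v a h]
    simp

/-- PROOF: compare lengths (the length goes down by one iff `a` is the head); if both go down, both
are the head; if both go up, compare the heads. -/
lemma wnb_inj (v : Vert d) : Function.Injective (wnb v) := by
  intro a b hab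
  have hab' : (wnb v a).1 = (wnb v b).1 := congrArg Subtype.val hab
  by_cases ha : v.1.head? = some a
  · by_cases hb : v.1.head? = some b
    · rw [ha] at hb
      exact Option.some.inj hb
    · exfalso
      rw [wnb_head v a ha, wnb_cons v b hb] at hab'
      have h1 := congrArg List.length hab'
      rw [List.length_tail, List.length_cons] at h1
      omega
  · by_cases hb : v.1.head? = some b
    · exfalso
      rw [wnb_head v b hb, wnb_cons v a ha] at hab'
      have h1 := congrArg List.length hab'
      rw [List.length_tail, List.length_cons] at h1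
      omega
    · rw [wnb_cons v a ha, wnb_cons v b hb] at hab'
      exact (List.cons.inj hab').1

/-- PROOF: from any `v ∈ S` one gets to the root by cancelling heads (induction on the length),
so `root ∈ S`; and every word is reached from the root by induction on the length
(`wnb_tail`). -/
lemma words_conn (S : Set (Vert d)) (hS : S.Nonempty) (h : ∀ v ∈ S, ∀ a, wnb v a ∈ S) :
    S = univ := by
  have key : ∀ (l : List (Fin (d + 1))) (hl : l.IsChain (· ≠ ·)),
      ((⟨l, hl⟩ : Vert d) ∈ S ↔ (root : Vert d) ∈ S) := by
    intro l
    induction l with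
    | nil => intro hl; exact Iff.rfl
    | cons a m ih =>
      intro hl
      rw [← ih hl.tail]
      constructor
      · intro h1
        have h2 := h _ h1 a
        rw [← wnb_tail a m hl, wnb_wnb] at h2
        exact h2
      · intro h1
        have h2 := h _ h1 a
        rw [wnb_tail a m hl] at h2
        exact h2
  obtain ⟨v, hv⟩ := hS
  have hr : (root : Vert d) ∈ S := (key v.1 v.2).1 hv
  ext w
  exact ⟨fun _ => mem_univ _, fun _ => (key w.1 w.2).2 hr⟩

end Pool.Agent.Helper94.CCA
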