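import Pool.Agent.Helper94.CCA.Mix
import Pool.Agent.Helper94.CCA.Inv

/-!
# The zero-one law from spreading
-/

open MeasureTheory Set

namespace Pool.Agent.Helper94.CCA

variable {V : Type*} {n κ : ℕ}

/-- PROOF: by `hS` and `L.conn`, almost surely either every vertex fluctuates or none does.  Apply
`zero_one_of_inv` to `A = {ω | Fluct F ω ρ}` (`measurableSet_fluct`): by `fluct_comp` the preimage
of `A` under `ω ↦ ω ∘ σ` is `{ω | Fluct F ω (σ ρ)}`, which is almost surely equal to `A`. -/
theorem zero_one_of_spreads [NeZero κ] (L : Lab V n) {F : (V → Fin κ) → V → Fin κ}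
    (hm : Measurable F) (hE : Equi L F) (hS : Spreads L F) (ρ : V) :
    law V κ {ω | Fluct F ω ρ} = 0 ∨ law V κ {ω | Fluct F ω ρ} = 1 := by
  refine zero_one_of_inv L _ (measurableSet_fluct hm ρ) fun σ hσ => ?_
  unfold Spreads at hS
  filter_upwards [hS] with ω hω
  have hall : ∀ v w : V, Fluct F ω v → Fluct F ω w := by
    intro v w hv
    have h := L.conn {u | Fluct F ω u} ⟨v, hv⟩ fun u hu a => hω u a hu
    have h2 : w ∈ {u | Fluct F ω u} := by rw [h]; exact mem_univ w
    exact h2
  refine propext ?_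
  change Fluct F (ω ∘ σ) ρ ↔ Fluct F ω ρ
  rw [fluct_comp hE hσ]
  exact ⟨hall _ _, hall _ _⟩

end Pool.Agent.Helper94.CCA
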